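import Pool.Agent.W620.SC.NF

namespace Pool.Agent.W620.SC

open Polynomial IntermediateField

lemma exists_val_one (f : ℤ[X]) (hdeg : 0 < f.natDegree) (A B : ℤ[X]) (D : ℤ)
    (hD : D ≠ 0) (h : A * f + B * derivative f = C D) :
    ∃ (m : ℤ) (l : ℕ), l.Prime ∧ (l : ℤ) ∣ f.eval m ∧ ¬ (l : ℤ) ^ 2 ∣ f.eval m := by
  have hf0 : f ≠ 0 := by
    rintro rfl
    simp at hdeg
  have hinf : ∀ g : ℤ[X], g ≠ 0 → ∀ u v : ℤ, v ≠ 0 → ∃ t : ℤ, g.eval (u + v * t) ≠ 0 := by
    intro g hg u v hv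
    by_contra hcon
    push Not at hcon
    apply hg
    apply eq_zero_of_infinite_isRoot
    have hinj : Function.Injective fun t : ℤ => u + v * t := by
      intro s t hst
      exact mul_left_cancel₀ hv (add_left_cancel hst)
    refine (Set.infinite_range_of_injective hinj).mono ?_
    rintro _ ⟨t, rfl⟩
    exact hcon t
  obtain ⟨m1, hm1⟩ := hinf f hf0 0 1 one_ne_zero
  simp only [zero_add, one_mul] at hm1
  set c := f.eval m1 with hc
  have hg : f ^ 2 - C (c ^ 2) ≠ 0 := by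
    intro h0
    have h1 : f ^ 2 = C (c ^ 2) := sub_eq_zero.1 h0
    have h2 := congrArg natDegree h1
    rw [natDegree_C, natDegree_pow] at h2
    omega
  obtain ⟨t, ht⟩ := hinf _ hg m1 (c * D) (mul_ne_zero hm1 hD)
  have hdvd : (m1 + c * D * t) - m1 ∣ f.eval (m1 + c * D * t) - f.eval m1 :=
    sub_dvd_eval_sub _ _ _
  obtain ⟨w, hw⟩ := hdvd
  rw [← hc] at hw
  set m0 := m1 + c * D * t with hm0
  have hfm0 : f.eval m0 = c * (1 + D * t * w) := by linear_combination hw
  have he : (1 + D * t * w).natAbs ≠ 1 := by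
    intro h1
    apply ht
    have h2 : (1 + D * t * w) ^ 2 = 1 := by
      rw [← Int.natAbs_sq, h1]
      rfl
    rw [eval_sub, eval_pow, eval_C, hfm0, mul_pow, h2]
    ring
  obtain ⟨l, hl, hle⟩ := Nat.exists_prime_and_dvd he
  have hle' : (l : ℤ) ∣ 1 + D * t * w := Int.natCast_dvd.2 hle
  have hlZ : Prime (l : ℤ) := Nat.prime_iff_prime_int.1 hl
  have hlD : ¬ (l : ℤ) ∣ D := by
    intro h1
    apply hlZ.not_isUnit
    refine isUnit_of_dvd_one ?_
    have h2 : (l : ℤ) ∣ D * t * w := (h1.mul_right t).mul_right w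
    have h3 := dvd_sub hle' h2
    simpa using h3
  have hlf : (l : ℤ) ∣ f.eval m0 := by
    rw [hfm0]
    exact hle'.mul_left c
  have hlf' : ¬ (l : ℤ) ∣ (derivative f).eval m0 := by
    intro h1
    apply hlD
    have h2 := congrArg (eval m0) h
    rw [eval_add, eval_mul, eval_mul, eval_C] at h2
    rw [← h2]
    exact dvd_add (hlf.mul_left _) (h1.mul_left _)
  by_cases hsq : (l : ℤ) ^ 2 ∣ f.eval m0
  · obtain ⟨K, hK⟩ := f.binomExpansion m0 l
    refine ⟨m0 + l, l, hl, ?_, ?_⟩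
    · rw [hK]
      exact dvd_add (dvd_add hlf (dvd_mul_left _ _)) (Dvd.dvd.mul_left (dvd_pow_self _ two_ne_zero) _)
    · intro h1
      rw [hK] at h1
      have h2 : (l : ℤ) ^ 2 ∣ (derivative f).eval m0 * l := by
        have h3 := dvd_sub (dvd_sub h1 (Dvd.intro_left K rfl : (l : ℤ) ^ 2 ∣ K * (l : ℤ) ^ 2)) hsq
        have h4 : f.eval m0 + (derivative f).eval m0 * l + K * (l : ℤ) ^ 2 - K * (l : ℤ) ^ 2 -
          f.eval m0 = (derivative f).eval m0 * l := by ring
        rwa [h4] at h3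
      rw [pow_two] at h2
      exact hlf' (Int.dvd_of_mul_dvd_mul_right hlZ.ne_zero h2)
  · exact ⟨m0, l, hl, hlf, hsq⟩

lemma clear_poly (u : ℚ[X]) : ∃ (D : ℤ) (U : ℤ[X]), D ≠ 0 ∧
    U.map (Int.castRingHom ℚ) = C (D : ℚ) * u := by
  obtain ⟨b, hb, h⟩ := IsLocalization.integerNormalization_spec (nonZeroDivisors ℤ) u
  refine ⟨b, IsLocalization.integerNormalization (nonZeroDivisors ℤ) u,
    nonZeroDivisors.ne_zero hb, ?_⟩
  have h1 : (Int.castRingHom ℚ) = algebraMap ℤ ℚ := rfl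
  rw [h1, h]
  ext i
  simp

lemma exists_norm (k : Type*) [Field k] [NumberField k] :
    ∃ (a : k) (n : ℤ) (l : ℕ), Algebra.norm ℚ a = n ∧ l.Prime ∧ (l : ℤ) ∣ n ∧
      ¬ (l : ℤ) ^ 2 ∣ n := by
  classical
  obtain ⟨θ₀, hθ₀⟩ := Field.exists_primitive_element ℚ k
  obtain ⟨y, hy, hint⟩ := exists_integral_multiples ℤ ℚ ({θ₀} : Finset k)
  have hint := hint θ₀ (Finset.mem_singleton_self _)
  set θ : k := y • θ₀ with hθ
  have hy0 : (y : k) ≠ 0 := by exact_mod_cast hy
  have htop : ℚ⟮θ⟯ = ⊤ := by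
    rw [eq_top_iff, ← hθ₀, adjoin_simple_le_iff]
    have h1 : θ₀ = (y : k)⁻¹ * θ := by
      rw [hθ, zsmul_eq_mul, inv_mul_cancel_left₀ hy0]
    rw [h1]
    exact mul_mem (inv_mem (intCast_mem _ y)) (mem_adjoin_simple_self ℚ θ)
  have hintQ : IsIntegral ℚ θ := hint.tower_top
  set pb : PowerBasis ℚ k := (adjoin.powerBasis hintQ).map
    ((IntermediateField.equivOfEq htop).trans IntermediateField.topEquiv) with hpb
  have hgen : pb.gen = θ := by
    rw [hpb, PowerBasis.map_gen, adjoin.powerBasis_gen]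
    rfl
  have hchar := charpoly_leftMulMatrix pb
  rw [hgen] at hchar
  have hmap : minpoly ℚ θ = (minpoly ℤ θ).map (Int.castRingHom ℚ) :=
    minpoly.isIntegrallyClosed_eq_field_fractions' ℚ hint
  have hnorm : ∀ m : ℤ, Algebra.norm ℚ ((m : k) - θ) = (((minpoly ℤ θ).eval m : ℤ) : ℚ) := by
    intro m
    rw [Algebra.norm_eq_matrix_det pb.basis, map_sub]
    have h1 : Algebra.leftMulMatrix pb.basis (m : k) = Matrix.scalar _ (m : ℚ) := by
      have h2 : (m : k) = algebraMap ℚ k (m : ℚ) := by simp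
      rw [h2, AlgHom.commutes]
      rfl
    rw [h1, ← Matrix.eval_charpoly, hchar, hmap]
    simp
  have hsep : (minpoly ℚ θ).Separable := (minpoly.irreducible hintQ).separable
  obtain ⟨u, v, huv⟩ := hsep
  obtain ⟨D1, A, hD1, hA⟩ := clear_poly u
  obtain ⟨D2, B, hD2, hB⟩ := clear_poly v
  have hrel : (C D2 * A) * minpoly ℤ θ + (C D1 * B) * derivative (minpoly ℤ θ) = C (D1 * D2) := by
    apply Polynomial.map_injective (Int.castRingHom ℚ) Int.cast_injective
    simp only [Polynomial.map_add, Polynomial.map_mul, map_C, hA, hB, ← derivative_map, ← hmap]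
    simp only [eq_intCast, Int.cast_mul, C_mul]
    linear_combination (C (D1 : ℚ) * C (D2 : ℚ)) * huv
  obtain ⟨m, l, hl, h1, h2⟩ := exists_val_one (minpoly ℤ θ) (minpoly.natDegree_pos hint) _ _ _
    (mul_ne_zero hD1 hD2) hrel
  exact ⟨(m : k) - θ, _, l, hnorm m, hl, h1, h2⟩

lemma exists_prime_symbols (M : ℕ) (l : ℕ) (hl : l.Prime) (B : ℕ) :
    ∃ p : ℕ, B < p ∧ ∃ _ : Fact p.Prime, p % 4 = 1 ∧ legendreSym p l = -1 ∧
      ∀ l' : ℕ, l'.Prime → l' ∣ M → l' ≠ l → M ≠ 0 → legendreSym p l' = 1 := by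
  classical
  have hlf : Fact l.Prime := ⟨hl⟩
  have hn0 : ∃ n0 : ℕ, l ≠ 2 → legendreSym l n0 = -1 := by
    by_cases h2 : l = 2
    · exact ⟨0, fun h => absurd h2 h⟩
    · have hc : ringChar (ZMod l) ≠ 2 := by rwa [ZMod.ringChar_zmod_n]
      obtain ⟨z, hz⟩ := FiniteField.exists_nonsquare hc
      refine ⟨z.val, fun _ => ?_⟩
      rw [legendreSym.eq_neg_one_iff]
      simpa using hz
  obtain ⟨n0, hn0⟩ := hn0
  set t : Finset ℕ := M.primeFactors ∪ {2, l} with ht
  have htp : ∀ i ∈ t, i.Prime := by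
    intro i hi
    rw [ht, Finset.mem_union, Finset.mem_insert, Finset.mem_singleton] at hi
    rcases hi with h | h | h
    · exact Nat.prime_of_mem_primeFactors h
    · rw [h]; exact Nat.prime_two
    · rw [h]; exact hl
  set s : ℕ → ℕ := fun i => if i = 2 then 8 else i with hs
  set a : ℕ → ℕ := fun i => if i = l then (if l = 2 then 5 else n0) else 1 with ha
  have hs0 : ∀ i ∈ t, s i ≠ 0 := by
    intro i hi
    rw [hs]
    dsimp only
    split_ifs
    · norm_num
    · exact (htp i hi).ne_zero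
  have hcop : ∀ i ∈ t, ∀ n : ℕ, Nat.Coprime n i → Nat.Coprime n (s i) := by
    intro i hi n hn
    rw [hs]
    dsimp only
    split_ifs with h2
    · rw [h2] at hn
      exact Nat.Coprime.pow_right 3 hn
    · exact hn
  have hcop' : ∀ i ∈ t, ∀ n : ℕ, Nat.Coprime i n → Nat.Coprime (s i) n := fun i hi n hn =>
    (hcop i hi n hn.symm).symm
  have hpp : Set.Pairwise (t : Set ℕ) (Function.onFun Nat.Coprime s) := by
    intro i hi j hj hij
    exact hcop' i hi _ (hcop j hj _ ((Nat.coprime_primes (htp i hi) (htp j hj)).2 hij))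
  obtain ⟨c, hc⟩ := Nat.chineseRemainderOfFinset a s t hs0 hpp
  have hac : ∀ i ∈ t, Nat.Coprime (a i) (s i) := by
    intro i hi
    apply hcop i hi
    rw [ha]
    dsimp only
    split_ifs with h1 h2
    · rw [h1, h2]; decide
    · rw [h1, Nat.coprime_comm, hl.coprime_iff_not_dvd]
      intro h3
      have h4 := hn0 h2
      rw [(legendreSym.eq_zero_iff l n0).2 (by
        rw [ZMod.intCast_zmod_eq_zero_iff_dvd]; exact_mod_cast h3)] at h4
      norm_num at h4
    · exact Nat.coprime_one_left i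
  have hcN : Nat.Coprime c (∏ i ∈ t, s i) := by
    refine Nat.Coprime.prod_right fun i hi => ?_
    have h1 := hc i hi
    have h2 := hac i hi
    rw [Nat.Coprime, h1.gcd_eq]
    exact h2
  obtain ⟨p, hpB, hpp, hpc⟩ := Nat.forall_exists_prime_gt_and_modEq B
    (Finset.prod_ne_zero_iff.2 hs0) hcN
  have hpa : ∀ i ∈ t, p ≡ a i [MOD s i] := fun i hi =>
    (hpc.of_dvd (Finset.dvd_prod_of_mem s hi)).trans (hc i hi)
  have hpf : Fact p.Prime := ⟨hpp⟩
  have h2t : 2 ∈ t := by rw [ht]; simp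
  have hlt : l ∈ t := by rw [ht]; simp
  have h8 := hpa 2 h2t
  have hs2 : s 2 = 8 := by rw [hs]; simp
  rw [hs2] at h8
  have ha2 : a 2 = if l = 2 then 5 else 1 := by
    rw [ha]
    dsimp only
    by_cases h : l = 2
    · rw [if_pos h.symm, if_pos h, if_pos h]
    · rw [if_neg (Ne.symm h), if_neg h]
  rw [ha2] at h8
  have hp4 : p % 4 = 1 := by
    unfold Nat.ModEq at h8
    split_ifs at h8 <;> omega
  refine ⟨p, hpB, hpf, hp4, ?_, ?_⟩
  · by_cases h2 : l = 2
    · rw [h2, leg_two hp4, if_neg]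
      rw [if_pos h2] at h8
      unfold Nat.ModEq at h8
      omega
    · rw [← recip hp4 h2]
      have h3 := hpa l hlt
      have h4 : s l = l := by rw [hs]; simp [h2]
      have h5 : a l = n0 := by rw [ha]; simp [h2]
      rw [h4, h5] at h3
      rw [← hn0 h2, legendreSym.mod l p, legendreSym.mod l n0]
      congr 1
      exact_mod_cast h3
  · intro l' hl' hdvd hne hM
    have hl't : l' ∈ t := by
      rw [ht, Finset.mem_union]
      exact Or.inl (Nat.mem_primeFactors.2 ⟨hl', hdvd, hM⟩)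
    have hlf' : Fact l'.Prime := ⟨hl'⟩
    by_cases h2 : l' = 2
    · have h3 : ¬ l = 2 := fun h => hne (h2.trans h.symm)
      rw [if_neg h3] at h8
      rw [h2, leg_two hp4, if_pos]
      unfold Nat.ModEq at h8
      omega
    · rw [← recip hp4 h2]
      have h3 := hpa l' hl't
      have h4 : s l' = l' := by rw [hs]; simp [h2]
      have h5 : a l' = 1 := by rw [ha]; simp [hne]
      rw [h4, h5] at h3
      have h6 : legendreSym l' ((1 : ℕ) : ℤ) = 1 := by simp
      rw [← h6, legendreSym.mod l' p, legendreSym.mod l' ((1 : ℕ) : ℤ)]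
      congr 1
      exact_mod_cast h3

theorem exists_pqa (k : Type*) [Field k] [NumberField k] :
    ∃ a : k, a ≠ 0 ∧ ∀ B : ℕ, ∃ (p q : ℕ) (_ : Fact p.Prime) (_ : Fact q.Prime),
      B < p ∧ B < q ∧ p % 4 = 1 ∧ q % 4 = 1 ∧ legendreSym p q = 1 ∧
        Odd (bad p q (Algebra.norm ℚ a)) := by
  classical
  obtain ⟨a, n, l, hn, hl, h1, h2⟩ := exists_norm k
  have hn0 : n ≠ 0 := by
    rintro rfl
    exact h2 (dvd_zero _)
  refine ⟨a, ?_, fun B => ?_⟩
  · rintro rfl
    rw [Algebra.norm_zero] at hn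
    exact hn0 (by exact_mod_cast hn.symm)
  have hM : n.natAbs ≠ 0 := Int.natAbs_ne_zero.2 hn0
  obtain ⟨p, hpB, hpf, hp4, hpl, hp1⟩ := exists_prime_symbols n.natAbs l hl B
  obtain ⟨q, hqB, hqf, hq4, hql, hq1⟩ := exists_prime_symbols (n.natAbs * p) l hl B
  have hpp : p.Prime := hpf.out
  have hq2 : q ≠ 2 := by rintro rfl; omega
  have hpl' : p ≠ l := by
    rintro rfl
    rw [(legendreSym.eq_zero_iff p p).2 (by simp)] at hpl
    norm_num at hpl
  have hqp : legendreSym q p = 1 := hq1 p hpp (dvd_mul_left _ _) hpl'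
    (mul_ne_zero hM hpp.ne_zero)
  have hpq : legendreSym p q = 1 := by
    rw [← recip hp4 hq2]
    exact hqp
  refine ⟨p, q, hpf, hqf, hpB, hqB, hp4, hq4, hpq, ?_⟩
  unfold bad
  rw [hn, Rat.num_intCast, Rat.den_intCast, mul_one]
  have hfil : n.natAbs.primeFactors.filter
      (fun l : ℕ => legendreSym p l = -1 ∧ legendreSym q l = -1) = {l} := by
    ext l'
    rw [Finset.mem_filter, Finset.mem_singleton, Nat.mem_primeFactors]
    constructor
    · rintro ⟨⟨hl', hd, -⟩, h3, -⟩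
      by_contra hne
      rw [hp1 l' hl' hd hne hM] at h3
      norm_num at h3
    · rintro rfl
      exact ⟨⟨hl, Int.natCast_dvd.1 h1, hM⟩, hpl, hql⟩
  rw [hfil, Finset.sum_singleton]
  have hfac : n.natAbs.factorization l = 1 := by
    have h3 : 1 ≤ n.natAbs.factorization l :=
      (hl.dvd_iff_one_le_factorization hM).1 (Int.natCast_dvd.1 h1)
    have h4 : ¬ 2 ≤ n.natAbs.factorization l := by
      intro h5
      apply h2
      have h6 : l ^ 2 ∣ n.natAbs := (hl.pow_dvd_iff_le_factorization hM).2 h5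
      have h7 : ((l ^ 2 : ℕ) : ℤ) ∣ n := Int.natCast_dvd.2 h6
      exact_mod_cast h7
    omega
  rw [hfac]
  exact odd_one

end Pool.Agent.W620.SC
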