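import Mathlib

namespace Pool.Agent.W620.SC

section

variable (p q : ℕ) [Fact p.Prime] [Fact q.Prime]

/-- `-1` at the primes where neither `p` nor `q` is a square, `1` at the others -/
def ep (l : ℕ) : ℤ := if legendreSym p l = -1 ∧ legendreSym q l = -1 then -1 else 1

/-- the multiplicative extension -/
def lam (m : ℕ) : ℤ := m.factorization.prod fun l e => ep p q l ^ e

end

variable {p q : ℕ} [Fact p.Prime] [Fact q.Prime]

lemma ep_cases (l : ℕ) : ep p q l = 1 ∨ ep p q l = -1 := by
  unfold ep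
  split_ifs
  · exact Or.inr rfl
  · exact Or.inl rfl

lemma ep_sq (l : ℕ) : ep p q l ^ 2 = 1 := by
  rcases ep_cases (p := p) (q := q) l with h | h <;> rw [h] <;> norm_num

lemma lam_mul {m n : ℕ} (hm : m ≠ 0) (hn : n ≠ 0) : lam p q (m * n) = lam p q m * lam p q n := by
  unfold lam
  rw [Nat.factorization_mul hm hn, Finsupp.prod_add_index']
  · intro a
    exact pow_zero _
  · intro a b c
    exact pow_add _ _ _

lemma lam_one : lam p q 1 = 1 := by
  simp [lam]

lemma lam_prime {l : ℕ} (hl : l.Prime) : lam p q l = ep p q l := by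
  unfold lam
  rw [hl.factorization]
  simp [Finsupp.prod_single_index]

lemma lam_cases (m : ℕ) : lam p q m = 1 ∨ lam p q m = -1 := by
  rcases eq_or_ne m 0 with rfl | hm
  · left
    simp [lam]
  · induction m using Nat.recOnMul with
    | zero => exact absurd rfl hm
    | one => exact Or.inl lam_one
    | prime l hl =>
      rw [lam_prime hl]
      exact ep_cases l
    | mul a b iha ihb =>
      have ha : a ≠ 0 := left_ne_zero_of_mul hm
      have hb : b ≠ 0 := right_ne_zero_of_mul hm
      rw [lam_mul ha hb]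
      rcases iha ha with h | h <;> rcases ihb hb with h' | h' <;> rw [h, h'] <;> norm_num

lemma lam_sq (m : ℕ) (hm : m ≠ 0) : lam p q (m ^ 2) = 1 := by
  rw [pow_two, lam_mul hm hm]
  rcases lam_cases (p := p) (q := q) m with h | h <;> rw [h] <;> norm_num

/-- on numbers all of whose prime factors are alike for `p` and `q` -/
lemma lam_eq_legendre {m : ℕ} (hm : m ≠ 0)
    (h : ∀ l : ℕ, l.Prime → l ∣ m → ep p q l = legendreSym p l) :
    lam p q m = legendreSym p m := by
  induction m using Nat.recOnMul with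
  | zero => exact absurd rfl hm
  | one =>
    rw [lam_one]
    simp [legendreSym.at_one]
  | prime l hl =>
    rw [lam_prime hl]
    exact h l hl dvd_rfl
  | mul a b iha ihb =>
    have ha : a ≠ 0 := left_ne_zero_of_mul hm
    have hb : b ≠ 0 := right_ne_zero_of_mul hm
    rw [lam_mul ha hb, iha ha fun l hl hla => h l hl (hla.mul_right b),
      ihb hb fun l hl hlb => h l hl (hlb.mul_left a)]
    push_cast
    rw [legendreSym.mul]

/-- the prime two -/
lemma leg_two (hp : p % 4 = 1) : legendreSym p (2 : ℕ) = if p % 8 = 1 then 1 else -1 := by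
  have hp2 : p ≠ 2 := by
    rintro rfl
    omega
  have h1 : IsSquare (2 : ZMod p) ↔ p % 8 = 1 ∨ p % 8 = 7 := ZMod.exists_sq_eq_two_iff hp2
  have h2 : ((2 : ℤ) : ZMod p) ≠ 0 := by
    intro h
    rw [ZMod.intCast_zmod_eq_zero_iff_dvd] at h
    have h3 : p ∣ 2 := by exact_mod_cast h
    have := Nat.le_of_dvd (by norm_num) h3
    have := (Fact.out : p.Prime).two_le
    omega
  split_ifs with h
  · push_cast
    rw [legendreSym.eq_one_iff p h2]
    push_cast
    exact h1.2 (Or.inl h)
  · push_cast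
    rw [legendreSym.eq_neg_one_iff]
    push_cast
    rw [h1]
    omega

lemma recip (hp : p % 4 = 1) {l : ℕ} [Fact l.Prime] (hl : l ≠ 2) :
    legendreSym l p = legendreSym p l :=
  legendreSym.quadratic_reciprocity_one_mod_four hp hl

lemma sq_mod_eight {u : ℤ} (hu : Odd u) : u ^ 2 % 8 = 1 := by
  obtain ⟨m, rfl⟩ := hu
  obtain ⟨c, hc⟩ := Int.even_mul_succ_self m
  have : (2 * m + 1) ^ 2 = 8 * c + 1 := by linear_combination 4 * hc
  omega

/-- norms from `ℚ(√p)` have even valuation at the primes where `p` is not a square -/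
lemma even_val (hp : p % 4 = 1) {l : ℕ} (hl : l.Prime) (h : legendreSym p l = -1) :
    ∀ (N : ℕ) (u v : ℤ), (u ^ 2 - p * v ^ 2).natAbs = N → N ≠ 0 → Even (N.factorization l) := by
  intro N
  induction N using Nat.strong_induction_on with
  | _ N ih =>
    intro u v hN hN0
    have hfl : Fact l.Prime := ⟨hl⟩
    by_cases hdvd : l ∣ N
    · -- both divisible
      have hboth : ((l : ℤ) ∣ u ∧ (l : ℤ) ∣ v) → Even (N.factorization l) := by
        rintro ⟨⟨u', rfl⟩, ⟨v', rfl⟩⟩
        have h1 : ((l * u') ^ 2 - p * (l * v') ^ 2 : ℤ) = l ^ 2 * (u' ^ 2 - p * v' ^ 2) := by ring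
        rw [h1, Int.natAbs_mul, Int.natAbs_pow, Int.natAbs_natCast] at hN
        set N' := (u' ^ 2 - p * v' ^ 2).natAbs with hN'
        have hN'0 : N' ≠ 0 := by
          intro h0
          rw [h0, mul_zero] at hN
          exact hN0 hN.symm
        have hlt : N' < N := by
          rw [← hN]
          have h2 : 2 ≤ l := hl.two_le
          have h3 : 0 < N' := Nat.pos_of_ne_zero hN'0
          have h4 : 4 ≤ l ^ 2 := by nlinarith
          have h5 := Nat.mul_le_mul_right N' h4
          omega
        have h4 := ih N' hlt u' v' rfl hN'0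
        rw [← hN, Nat.factorization_mul (pow_ne_zero _ hl.ne_zero) hN'0, hl.factorization_pow]
        simp only [Finsupp.coe_add, Pi.add_apply, Finsupp.single_eq_same]
        exact even_two.add h4
      by_cases hl2 : l = 2
      · subst hl2
        have h5 : p % 8 = 5 := by
          have h6 := leg_two hp
          rw [h] at h6
          by_cases h7 : p % 8 = 1
          · rw [if_pos h7] at h6
            norm_num at h6
          · omega
        rcases Int.even_or_odd u with hu | hu
        · rcases Int.even_or_odd v with hv | hv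
          · exact hboth ⟨by exact_mod_cast hu.two_dvd, by exact_mod_cast hv.two_dvd⟩
          · exfalso
            have h8 : Odd (u ^ 2 - p * v ^ 2) := by
              have h9 : Odd (p : ℤ) := by
                rw [Int.odd_iff]
                omega
              exact (hu.pow_of_ne_zero two_ne_zero).sub_odd (h9.mul hv.pow)
            rw [← Int.natAbs_odd, hN] at h8
            rw [Nat.odd_iff] at h8
            omega
        · rcases Int.even_or_odd v with hv | hv
          · exfalso
            have h8 : Odd (u ^ 2 - p * v ^ 2) :=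
              hu.pow.sub_even ((hv.pow_of_ne_zero two_ne_zero).mul_left _)
            rw [← Int.natAbs_odd, hN] at h8
            rw [Nat.odd_iff] at h8
            omega
          · have hu8 : u ^ 2 % 8 = 1 := sq_mod_eight hu
            have hv8 : v ^ 2 % 8 = 1 := sq_mod_eight hv
            have h8 : (u ^ 2 - p * v ^ 2) % 8 = 4 := by
              have h9 : ((p : ℤ) * v ^ 2) % 8 = 5 := by
                rw [Int.mul_emod, hv8]
                have : (p : ℤ) % 8 = 5 := by omega
                rw [this]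
                norm_num
              omega
            have h10 : N % 8 = 4 := by omega
            obtain ⟨m, hm⟩ : ∃ m, N = 4 * (2 * m + 1) := ⟨N / 8, by omega⟩
            rw [hm, Nat.factorization_mul (by norm_num) (by omega)]
            have h11 : (4 : ℕ) = 2 ^ 2 := by norm_num
            rw [h11, Nat.prime_two.factorization_pow]
            simp only [Finsupp.coe_add, Pi.add_apply, Finsupp.single_eq_same]
            rw [Nat.factorization_eq_zero_of_not_dvd (by omega)]
            decide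
      · apply hboth
        have h5 : legendreSym l p = -1 := by rw [recip hp hl2]; exact h
        have h6 : (l : ℤ) ∣ u ^ 2 - p * v ^ 2 := by
          rw [← Int.natCast_dvd_natCast] at hdvd
          rw [← hN] at hdvd
          exact Int.dvd_natAbs.1 hdvd
        exact legendreSym.prime_dvd_of_eq_neg_one h5 h6
    · rw [Nat.factorization_eq_zero_of_not_dvd hdvd]
      exact Even.zero

lemma lam_of_even {m : ℕ} (h : ∀ l : ℕ, l.Prime → legendreSym p l = -1 → legendreSym q l = -1 →
    Even (m.factorization l)) : lam p q m = 1 := by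
  unfold lam
  refine Finset.prod_eq_one fun l hl => ?_
  have hlp : l.Prime := Nat.prime_of_mem_primeFactors hl
  have : ep p q l ^ (m.factorization l) = 1 := by
    unfold ep
    split_ifs with h1
    · exact (h l hlp h1.1 h1.2).neg_one_pow
    · exact one_pow _
  exact this

lemma lam_norm_left (hp : p % 4 = 1) {u v : ℤ} (h : u ^ 2 - p * v ^ 2 ≠ 0) :
    lam p q (u ^ 2 - p * v ^ 2).natAbs = 1 :=
  lam_of_even fun _ hl h1 _ => even_val hp hl h1 _ u v rfl (Int.natAbs_ne_zero.2 h)

lemma lam_norm_right (hq : q % 4 = 1) {u v : ℤ} (h : u ^ 2 - q * v ^ 2 ≠ 0) :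
    lam p q (u ^ 2 - q * v ^ 2).natAbs = 1 :=
  lam_of_even fun _ hl _ h2 => even_val hq hl h2 _ u v rfl (Int.natAbs_ne_zero.2 h)

lemma leg_natAbs (hp : p % 4 = 1) (x : ℤ) : legendreSym p x.natAbs = legendreSym p x := by
  rcases Int.natAbs_eq x with h | h
  · rw [← h]
  · have h1 : legendreSym p (-1) = 1 := by
      rw [legendreSym.at_neg_one (by rintro rfl; omega)]
      exact ZMod.χ₄_nat_one_mod_four hp
    conv_rhs => rw [h, neg_eq_neg_one_mul, legendreSym.mul, h1, one_mul]

/-- coprime norms from `ℚ(√(pq))` -/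
lemma lam_norm_both_coprime (hp : p % 4 = 1) (hq : q % 4 = 1) (hpq : legendreSym p q = 1)
    {u v : ℤ} (h : u ^ 2 - p * q * v ^ 2 ≠ 0) (hcop : IsCoprime u v) :
    lam p q (u ^ 2 - p * q * v ^ 2).natAbs = 1 := by
  have hpp : p.Prime := Fact.out
  have hqp : q.Prime := Fact.out
  have hne : p ≠ q := by
    rintro rfl
    rw [(legendreSym.eq_zero_iff p p).2 (by simp)] at hpq
    norm_num at hpq
  have hp2 : p ≠ 2 := by rintro rfl; omega
  have hq2 : q ≠ 2 := by rintro rfl; omega
  set N : ℤ := u ^ 2 - p * q * v ^ 2 with hN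
  -- odd primes
  have hodd : ∀ l : ℕ, l.Prime → l ≠ 2 → l ≠ p → (l : ℤ) ∣ N → ep p q l = legendreSym p l := by
    intro l hl hl2 hlp hlN
    have hfl : Fact l.Prime := ⟨hl⟩
    by_cases hlq : l = q
    · subst hlq
      unfold ep
      rw [hpq]
      simp
    · have h0 : legendreSym p l ≠ 0 := by
        rw [Ne, legendreSym.eq_zero_iff]
        intro h0
        rw [ZMod.intCast_zmod_eq_zero_iff_dvd] at h0
        have h1 : p ∣ l := by exact_mod_cast h0
        exact hlp ((Nat.prime_dvd_prime_iff_eq hpp hl).1 h1).symm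
      have h0' : legendreSym q l ≠ 0 := by
        rw [Ne, legendreSym.eq_zero_iff]
        intro h0
        rw [ZMod.intCast_zmod_eq_zero_iff_dvd] at h0
        have h1 : q ∣ l := by exact_mod_cast h0
        exact hlq ((Nat.prime_dvd_prime_iff_eq hqp hl).1 h1).symm
      have h1 : legendreSym l (p * q : ℤ) ≠ -1 := by
        intro h1
        have h2 := legendreSym.prime_dvd_of_eq_neg_one h1 (x := u) (y := v) hlN
        obtain ⟨a, b, hab⟩ := hcop
        have h3 : (l : ℤ) ∣ 1 := by
          rw [← hab]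
          exact dvd_add (h2.1.mul_left _) (h2.2.mul_left _)
        have h4 : l ∣ 1 := by exact_mod_cast h3
        exact hl.one_lt.ne' (Nat.dvd_one.1 h4)
      rw [legendreSym.mul, recip hp hl2, recip hq hl2] at h1
      unfold ep
      rcases legendreSym.eq_one_or_neg_one p (a := (l : ℤ)) (by
        intro h; exact h0 ((legendreSym.eq_zero_iff p l).2 h)) with h2 | h2 <;>
      rcases legendreSym.eq_one_or_neg_one q (a := (l : ℤ)) (by
        intro h; exact h0' ((legendreSym.eq_zero_iff q l).2 h)) with h3 | h3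
      · rw [h2, h3]; norm_num
      · rw [h2, h3]; norm_num
      · exact absurd (by rw [h2, h3]; norm_num) h1
      · rw [h2, h3]; norm_num
  -- the part at `p`
  have hNp : ∃ (α : ℕ) (N1 : ℤ), N = p ^ α * N1 ∧ legendreSym p N1 = 1 := by
    by_cases hpu : (p : ℤ) ∣ u
    · obtain ⟨u', rfl⟩ := hpu
      refine ⟨1, p * u' ^ 2 - q * v ^ 2, by rw [hN]; ring, ?_⟩
      have hpv : ¬ (p : ℤ) ∣ v := by
        intro hpv
        obtain ⟨a, b, hab⟩ := hcop
        have h3 : (p : ℤ) ∣ 1 := by
          rw [← hab]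
          exact dvd_add ((dvd_mul_right _ _).mul_left _) (hpv.mul_left _)
        have h4 : p ∣ 1 := by exact_mod_cast h3
        exact hpp.one_lt.ne' (Nat.dvd_one.1 h4)
      have h5 : legendreSym p (p * u' ^ 2 - q * v ^ 2) = legendreSym p (-1 * q * v ^ 2) := by
        unfold legendreSym
        congr 1
        push_cast
        rw [ZMod.natCast_self]
        ring
      rw [h5, legendreSym.mul, legendreSym.mul, hpq, legendreSym.at_neg_one hp2,
        ZMod.χ₄_nat_one_mod_four hp, legendreSym.sq_one']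
      · norm_num
      · intro h6
        rw [ZMod.intCast_zmod_eq_zero_iff_dvd] at h6
        exact hpv h6
    · refine ⟨0, N, by rw [pow_zero, one_mul], ?_⟩
      have h5 : legendreSym p N = legendreSym p (u ^ 2) := by
        unfold legendreSym
        congr 1
        rw [hN]
        push_cast
        rw [ZMod.natCast_self]
        ring
      rw [h5, legendreSym.sq_one']
      intro h6
      rw [ZMod.intCast_zmod_eq_zero_iff_dvd] at h6
      exact hpu h6
  obtain ⟨α, N1, hN1, hleg⟩ := hNp
  have hN10 : N1 ≠ 0 := by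
    rintro rfl
    rw [mul_zero] at hN1
    exact h hN1
  have hpN1 : ¬ (p : ℤ) ∣ N1 := by
    intro h7
    rw [(legendreSym.eq_zero_iff p N1).2 ((ZMod.intCast_zmod_eq_zero_iff_dvd _ _).2 h7)] at hleg
    norm_num at hleg
  have hlamp : ∀ n : ℕ, lam p q (p ^ n) = 1 := by
    have h1 : lam p q p = 1 := by
      rw [lam_prime hpp]
      unfold ep
      rw [(legendreSym.eq_zero_iff p p).2 (by simp)]
      simp
    intro n
    induction n with
    | zero => rw [pow_zero]; exact lam_one
    | succ n ih =>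
      rw [pow_succ, lam_mul (pow_ne_zero _ hpp.ne_zero) hpp.ne_zero, ih, h1, one_mul]
  have hNabs : N.natAbs = p ^ α * N1.natAbs := by
    rw [hN1, Int.natAbs_mul, Int.natAbs_pow, Int.natAbs_natCast]
  have hlamN : lam p q N.natAbs = lam p q N1.natAbs := by
    rw [hNabs, lam_mul (pow_ne_zero _ hpp.ne_zero) (Int.natAbs_ne_zero.2 hN10), hlamp, one_mul]
  have hN1N : ∀ l : ℕ, l ∣ N1.natAbs → (l : ℤ) ∣ N := by
    intro l hl
    rw [hN1]
    exact (Int.natCast_dvd.2 hl).mul_left _
  have hlne : ∀ l : ℕ, l ∣ N1.natAbs → l ≠ p := by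
    rintro l hl rfl
    exact hpN1 (Int.natCast_dvd.2 hl)
  have hodd' : ∀ l : ℕ, l.Prime → l ≠ 2 → l ∣ N1.natAbs → ep p q l = legendreSym p l :=
    fun l hl hl2 hlN => hodd l hl hl2 (hlne l hlN) (hN1N l hlN)
  rw [hlamN]
  by_cases hall : ∀ l : ℕ, l.Prime → l ∣ N1.natAbs → ep p q l = legendreSym p l
  · rw [lam_eq_legendre (Int.natAbs_ne_zero.2 hN10) hall, leg_natAbs hp, hleg]
  · push Not at hall
    obtain ⟨l, hl, hlN, hle⟩ := hall
    have hl2 : l = 2 := by
      by_contra hl2
      exact hle (hodd' l hl hl2 hlN)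
    subst hl2
    -- `p` and `q` are different modulo eight
    have h58 : (p * q) % 8 = 5 := by
      unfold ep at hle
      rw [leg_two hp, leg_two hq] at hle
      by_cases h1 : p % 8 = 1 <;> by_cases h2 : q % 8 = 1
      · simp [h1, h2] at hle
      · have h3 : q % 8 = 5 := by omega
        rw [Nat.mul_mod, h1, h3]
      · have h3 : p % 8 = 5 := by omega
        rw [Nat.mul_mod, h2, h3]
      · simp [h1, h2] at hle
    have h2N : (2 : ℤ) ∣ N := by exact_mod_cast hN1N 2 hlN
    have hpqodd : Odd ((p : ℤ) * q) := by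
      rw [Int.odd_iff]
      have : ((p : ℤ) * q) = ((p * q : ℕ) : ℤ) := by push_cast; rfl
      rw [this]
      omega
    have huv : Odd u ∧ Odd v := by
      rcases Int.even_or_odd u with hu | hu <;> rcases Int.even_or_odd v with hv | hv
      · exfalso
        obtain ⟨a, b, hab⟩ := hcop
        have h3 : (2 : ℤ) ∣ 1 := by
          rw [← hab]
          exact dvd_add (hu.two_dvd.mul_left _) (hv.two_dvd.mul_left _)
        norm_num at h3
      · exfalso
        have h8 : Odd N := (hu.pow_of_ne_zero two_ne_zero).sub_odd (hpqodd.mul hv.pow)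
        rw [Int.odd_iff] at h8
        omega
      · exfalso
        have h8 : Odd N := hu.pow.sub_even ((hv.pow_of_ne_zero two_ne_zero).mul_left _)
        rw [Int.odd_iff] at h8
        omega
      · exact ⟨hu, hv⟩
    have hu8 : u ^ 2 % 8 = 1 := sq_mod_eight huv.1
    have hv8 : v ^ 2 % 8 = 1 := sq_mod_eight huv.2
    have hN8 : N % 8 = 4 := by
      have h9 : ((p : ℤ) * q * v ^ 2) % 8 = 5 := by
        rw [Int.mul_emod, hv8]
        have h10 : ((p : ℤ) * q) % 8 = 5 := by
          have : ((p : ℤ) * q) = ((p * q : ℕ) : ℤ) := by push_cast; rfl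
          rw [this]
          omega
        rw [h10]
        norm_num
      omega
    have hNa8 : N.natAbs % 8 = 4 := by omega
    have h4 : 4 ∣ N1.natAbs := by
      have h11 : 4 ∣ p ^ α * N1.natAbs := by
        rw [← hNabs]
        omega
      refine Nat.Coprime.dvd_of_dvd_mul_left ?_ h11
      have h12 : Nat.Coprime 2 p := (Nat.coprime_primes Nat.prime_two hpp).2 hp2.symm
      have h13 : (4 : ℕ) = 2 ^ 2 := by norm_num
      rw [h13]
      exact Nat.Coprime.pow _ _ h12
    obtain ⟨m, hm⟩ := h4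
    have hm0 : m ≠ 0 := by
      rintro rfl
      rw [mul_zero] at hm
      exact hN10 (Int.natAbs_eq_zero.1 hm)
    have hmodd : ¬ 2 ∣ m := by
      rintro ⟨c, rfl⟩
      have h14 : 8 ∣ N.natAbs := ⟨p ^ α * c, by rw [hNabs, hm]; ring⟩
      omega
    have h15 : lam p q m = legendreSym p m := by
      refine lam_eq_legendre hm0 fun l hl hlm => ?_
      refine hodd' l hl ?_ (by rw [hm]; exact hlm.mul_left _)
      rintro rfl
      exact hmodd hlm
    have h16 : lam p q 4 = 1 := by
      have := lam_sq (p := p) (q := q) 2 (by norm_num)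
      norm_num at this
      exact this
    have h17 : legendreSym p ((4 : ℕ) : ℤ) = 1 := by
      have h18 : (((2 : ℤ)) : ZMod p) ≠ 0 := by
        intro h
        rw [ZMod.intCast_zmod_eq_zero_iff_dvd] at h
        have h3 : p ∣ 2 := by exact_mod_cast h
        exact hp2 ((Nat.prime_dvd_prime_iff_eq hpp Nat.prime_two).1 h3)
      have := legendreSym.sq_one' p h18
      norm_num at this ⊢
      exact this
    rw [hm, lam_mul (by norm_num) hm0, h16, one_mul, h15]
    have h19 : legendreSym p N1.natAbs = 1 := by rw [leg_natAbs hp, hleg]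
    rw [hm, Nat.cast_mul, legendreSym.mul, h17, one_mul] at h19
    exact h19

lemma lam_norm_both (hp : p % 4 = 1) (hq : q % 4 = 1) (hpq : legendreSym p q = 1)
    {u v : ℤ} (h : u ^ 2 - p * q * v ^ 2 ≠ 0) : lam p q (u ^ 2 - p * q * v ^ 2).natAbs = 1 := by
  have huv : 0 < Int.gcd u v := by
    rw [Int.gcd_pos_iff]
    by_contra hcon
    push Not at hcon
    apply h
    rw [hcon.1, hcon.2]
    ring
  obtain ⟨u', v', hcop, hu, hv⟩ := Int.exists_gcd_one huv
  have h1 : u ^ 2 - p * q * v ^ 2 = (Int.gcd u v : ℤ) ^ 2 * (u' ^ 2 - p * q * v' ^ 2) := by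
    generalize (Int.gcd u v : ℤ) = g at hu hv
    rw [hu, hv]
    ring
  have h2 : u' ^ 2 - p * q * v' ^ 2 ≠ 0 := by
    intro h0
    rw [h0, mul_zero] at h1
    exact h h1
  rw [h1, Int.natAbs_mul, Int.natAbs_pow, Int.natAbs_natCast,
    lam_mul (pow_ne_zero _ huv.ne') (Int.natAbs_ne_zero.2 h2), lam_sq _ huv.ne', one_mul]
  exact lam_norm_both_coprime hp hq hpq h2 (Int.isCoprime_iff_gcd_eq_one.2 hcop)

lemma clear_den (d : ℤ) (u v : ℚ) : ∃ (D : ℕ) (U V : ℤ), D ≠ 0 ∧
    (D : ℚ) ^ 2 * (u ^ 2 - d * v ^ 2) = ((U ^ 2 - d * V ^ 2 : ℤ) : ℚ) := by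
  refine ⟨u.den * v.den, u.num * v.den, v.num * u.den, mul_ne_zero u.den_nz v.den_nz, ?_⟩
  have hu : (u.den : ℚ) ≠ 0 := by exact_mod_cast u.den_nz
  have hv : (v.den : ℚ) ≠ 0 := by exact_mod_cast v.den_nz
  have h1 : u * u.den = u.num := Rat.mul_den_eq_num u
  have h2 : v * v.den = v.num := Rat.mul_den_eq_num v
  push_cast
  rw [← h1, ← h2]
  ring

theorem not_norms (hp : p % 4 = 1) (hq : q % 4 = 1) (hpq : legendreSym p q = 1) {a : ℤ}
    (ha : a ≠ 0) (hodd : lam p q a.natAbs = -1) (r u1 v1 u2 v2 u3 v3 : ℚ) :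
    (a : ℚ) ≠ r ^ 2 * ((u1 ^ 2 - p * v1 ^ 2) * (u2 ^ 2 - q * v2 ^ 2) *
      (u3 ^ 2 - (p * q : ℚ) * v3 ^ 2)) := by
  intro heq
  obtain ⟨D1, U1, V1, hD1, h1⟩ := clear_den (p : ℤ) u1 v1
  obtain ⟨D2, U2, V2, hD2, h2⟩ := clear_den (q : ℤ) u2 v2
  obtain ⟨D3, U3, V3, hD3, h3⟩ := clear_den ((p : ℤ) * q) u3 v3
  have hr : r * r.den = r.num := Rat.mul_den_eq_num r
  have key : a * ((r.den * D1 * D2 * D3 : ℕ) : ℤ) ^ 2 =
      r.num ^ 2 * ((U1 ^ 2 - p * V1 ^ 2) * (U2 ^ 2 - q * V2 ^ 2) *
        (U3 ^ 2 - p * q * V3 ^ 2)) := by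
    have : ((a * ((r.den * D1 * D2 * D3 : ℕ) : ℤ) ^ 2 : ℤ) : ℚ) =
      ((r.num ^ 2 * ((U1 ^ 2 - p * V1 ^ 2) * (U2 ^ 2 - q * V2 ^ 2) *
        (U3 ^ 2 - p * q * V3 ^ 2)) : ℤ) : ℚ) := by
      rw [Int.cast_mul, Int.cast_mul, Int.cast_mul, Int.cast_mul, ← h1, ← h2, ← h3]
      push_cast
      rw [← hr, heq]
      ring
    exact_mod_cast this
  have hL : a * ((r.den * D1 * D2 * D3 : ℕ) : ℤ) ^ 2 ≠ 0 := by
    refine mul_ne_zero ha (pow_ne_zero _ ?_)
    have : r.den * D1 * D2 * D3 ≠ 0 :=
      mul_ne_zero (mul_ne_zero (mul_ne_zero r.den_nz hD1) hD2) hD3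
    exact_mod_cast this
  have hR := hL
  rw [key] at hR
  have hr0 : r.num ^ 2 ≠ 0 := left_ne_zero_of_mul hR
  have hN := right_ne_zero_of_mul hR
  have hN3 := right_ne_zero_of_mul hN
  have hN12 := left_ne_zero_of_mul hN
  have hN1 := left_ne_zero_of_mul hN12
  have hN2 := right_ne_zero_of_mul hN12
  have hrn : r.num ≠ 0 := by
    rintro h0
    rw [h0] at hr0
    norm_num at hr0
  have e1 : lam p q (a * ((r.den * D1 * D2 * D3 : ℕ) : ℤ) ^ 2).natAbs = -1 := by
    rw [Int.natAbs_mul, Int.natAbs_pow, Int.natAbs_natCast,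
      lam_mul (Int.natAbs_ne_zero.2 ha), lam_sq, hodd]
    · norm_num
    · exact mul_ne_zero (mul_ne_zero (mul_ne_zero r.den_nz hD1) hD2) hD3
    · exact pow_ne_zero _ (mul_ne_zero (mul_ne_zero (mul_ne_zero r.den_nz hD1) hD2) hD3)
  rw [key, Int.natAbs_mul, Int.natAbs_mul, Int.natAbs_mul, Int.natAbs_pow,
    lam_mul (pow_ne_zero _ (Int.natAbs_ne_zero.2 hrn)), lam_sq _ (Int.natAbs_ne_zero.2 hrn),
    lam_mul, lam_mul (Int.natAbs_ne_zero.2 hN1) (Int.natAbs_ne_zero.2 hN2),
    lam_norm_left hp hN1, lam_norm_right hq hN2, lam_norm_both hp hq hpq hN3] at e1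
  · norm_num at e1
  · exact mul_ne_zero (Int.natAbs_ne_zero.2 hN1) (Int.natAbs_ne_zero.2 hN2)
  · exact Int.natAbs_ne_zero.2 hN3
  · exact mul_ne_zero (mul_ne_zero (Int.natAbs_ne_zero.2 hN1) (Int.natAbs_ne_zero.2 hN2))
      (Int.natAbs_ne_zero.2 hN3)

/-- the parity of the number of prime factors, with multiplicity, at which neither `p` nor `q` is
a square -/
lemma lam_of_odd {m : ℕ} (h : Odd (∑ l ∈ m.primeFactors.filter
    (fun l : ℕ => legendreSym p l = -1 ∧ legendreSym q l = -1), m.factorization l)) :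
    lam p q m = -1 := by
  have h1 : lam p q m = (-1) ^ (∑ l ∈ m.primeFactors.filter
      (fun l : ℕ => legendreSym p l = -1 ∧ legendreSym q l = -1), m.factorization l) := by
    unfold lam
    rw [← Finset.prod_pow_eq_pow_sum, Finset.prod_filter]
    refine Finset.prod_congr rfl fun l _ => ?_
    change ep p q l ^ (m.factorization l) = _
    unfold ep
    split_ifs
    · rfl
    · exact one_pow _
  rw [h1, h.neg_one_pow]

end Pool.Agent.W620.SC
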