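import Mathlib

namespace Pool.Agent.W620.SC

open Finset

variable {k A M : Type*} [Field k] [Field A] [Field M] [Algebra k A]

/-- Hilbert 90 for the twisted action -/
theorem exists_fixed_multiple [Normal k A] (s : (A ≃ₐ[k] A) →* RingAut M) (ι : A →+* M)
    (hι : ∀ σ a, s σ (ι a) = ι (σ a)) (T : Subgroup (A ≃ₐ[k] A)) (w : M) (hw0 : w ≠ 0)
    (hw : ∀ σ ∈ T, ∃ ζ : A, s σ w = ι ζ * w) (E : IntermediateField k A)
    [FiniteDimensional k E] (hE : ∀ σ ∈ E.fixingSubgroup, s σ w = w) :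
    ∃ β : A, β ≠ 0 ∧ ∀ σ ∈ T, s σ (ι β * w) = ι β * w := by
  classical
  set L : IntermediateField k A := IntermediateField.normalClosure k E A with hL
  have hEL : E ≤ L := IntermediateField.le_normalClosure E
  have : Normal k L := inferInstance
  have : FiniteDimensional k L := inferInstance
  set res : (A ≃ₐ[k] A) →* (L ≃ₐ[k] L) := AlgEquiv.restrictNormalHom L with hres
  have hresapp : ∀ (σ : A ≃ₐ[k] A) (x : L), ((res σ x : L) : A) = σ x := fun σ x =>
    AlgEquiv.restrictNormal_commutes σ L x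
  set T' : Subgroup (L ≃ₐ[k] L) := T.map res with hT'
  have hlift : ∀ τ : T', ∃ σ : A ≃ₐ[k] A, σ ∈ T ∧ res σ = τ.1 := fun τ => by
    obtain ⟨σ, hσ, h⟩ := τ.2
    exact ⟨σ, hσ, h⟩
  choose lft hlT hlres using hlift
  have : Finite (L ≃ₐ[k] L) := inferInstance
  have : Fintype T' := Fintype.ofFinite _
  -- two lifts act in the same way on `w`
  have hsame : ∀ σ σ' : A ≃ₐ[k] A, res σ = res σ' → s σ w = s σ' w := by
    intro σ σ' h
    have h1 : σ'⁻¹ * σ ∈ E.fixingSubgroup := by
      rw [IntermediateField.mem_fixingSubgroup_iff]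
      intro x hx
      have h2 : ((res σ ⟨x, hEL hx⟩ : L) : A) = ((res σ' ⟨x, hEL hx⟩ : L) : A) := by rw [h]
      rw [hresapp, hresapp] at h2
      simp only at h2
      change σ'⁻¹ (σ x) = x
      rw [h2]
      exact AlgEquiv.symm_apply_apply σ' x
    have h3 := hE _ h1
    have h4 : σ = σ' * (σ'⁻¹ * σ) := by group
    rw [h4, map_mul]
    change s σ' (s (σ'⁻¹ * σ) w) = s σ' w
    rw [h3]
  have hζ : ∀ τ : T', ∃ ζ : A, s (lft τ) w = ι ζ * w := fun τ => hw _ (hlT τ)
  choose ζ hζ using hζ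
  have hζ0 : ∀ τ, ζ τ ≠ 0 := by
    intro τ h
    have h1 := hζ τ
    rw [h, map_zero, zero_mul] at h1
    exact hw0 ((map_eq_zero_iff _ (s (lft τ)).injective).1 h1)
  -- independence of characters
  have hex : ∃ x : L, ∑ τ : T', ζ τ * ((τ.1 x : L) : A) ≠ 0 := by
    by_contra hcon
    push Not at hcon
    have hli := linearIndependent_monoidHom L A
    set f : T' → (L →* A) := fun τ =>
      ((algebraMap L A : L →+* A) : L →* A).comp ((τ.1 : L ≃ₐ[k] L) : L →* L) with hf
    have hinj : Function.Injective f := by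
      intro τ τ' h
      apply Subtype.ext
      apply AlgEquiv.ext
      intro x
      have := DFunLike.congr_fun h x
      exact Subtype.ext this
    have hli' := hli.comp f hinj
    rw [Fintype.linearIndependent_iff] at hli'
    have h1 := hli' ζ (by
      funext x
      simp only [Finset.sum_apply, Pi.smul_apply, smul_eq_mul, Function.comp_apply, Pi.zero_apply]
      exact hcon x)
    exact hζ0 1 (h1 1)
  obtain ⟨x, hx⟩ := hex
  refine ⟨_, hx, ?_⟩
  -- the invariant sum
  have hB : ι (∑ τ : T', ζ τ * ((τ.1 x : L) : A)) * w =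
      ∑ τ : T', ι ((τ.1 x : L) : A) * s (lft τ) w := by
    rw [map_sum, Finset.sum_mul]
    refine Finset.sum_congr rfl fun τ _ => ?_
    rw [hζ, map_mul]
    ring
  intro σ hσ
  rw [hB, map_sum]
  have hσ' : res σ ∈ T' := ⟨σ, hσ, rfl⟩
  have hterm : ∀ τ : T', s σ (ι ((τ.1 x : L) : A) * s (lft τ) w) =
      ι ((((⟨res σ, hσ'⟩ * τ : T') : L ≃ₐ[k] L) x : L) : A) *
        s (lft (⟨res σ, hσ'⟩ * τ)) w := by
    intro τ
    rw [map_mul, hι]
    congr 1
    · congr 1
      change _ = (((res σ) (τ.1 x) : L) : A)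
      rw [hresapp]
    · change (s σ * s (lft τ)) w = _
      rw [← map_mul]
      apply hsame
      rw [map_mul, hlres, hlres]
      rfl
  rw [Finset.sum_congr rfl fun τ _ => hterm τ]
  exact Fintype.sum_equiv (Equiv.mulLeft (⟨res σ, hσ'⟩ : T')) _ _ (fun τ => rfl)

/-- lifting an embedding -/
theorem exists_lift [Normal k A] (K : IntermediateField k A) (φ : K →ₐ[k] A) :
    ∃ σ : A ≃ₐ[k] A, ∀ x : K, σ x = φ x := by
  refine ⟨AlgEquiv.ofBijective (φ.liftNormal A) (AlgHom.normal_bijective k A A _), fun x => ?_⟩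
  exact φ.liftNormal_commutes A x

end Pool.Agent.W620.SC
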