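import Pool.Agent.W620.SC.Norm

namespace Pool.Agent.W620.SC

open Polynomial

universe u v w

section defs

variable (k : Type u) (F : Type v) (Ω : Type w) [Field k] [Field F] [Field Ω] [Algebra k F]
  [Algebra F Ω] [Algebra k Ω]

/-- the inertia group of the valuation ring `W` of `Ω`, as a subgroup of `Gal(Ω/F)` -/
noncomputable def inertia (W : ValuationSubring Ω) : Subgroup (Ω ≃ₐ[F] Ω) :=
  (W.inertiaSubgroup F).map (W.decompositionSubgroup F).subtype

/-- the maximal extension of `F` inside `Ω` unramified over the places in `U` -/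
noncomputable def unramified (U : Set (ValuationSubring F)) : IntermediateField F Ω :=
  ⨅ W : {W : ValuationSubring Ω // W.comap (algebraMap F Ω) ∈ U},
    IntermediateField.fixedField (inertia F Ω W.1)

/-- Galois sections -/
structure GSection (U : Set (ValuationSubring F)) where
  toHom : (algebraicClosure k Ω ≃ₐ[k] algebraicClosure k Ω) →*
    (unramified F Ω U ≃ₐ[F] unramified F Ω U)
  cont : Continuous toHom
  compat : ∀ σ (x : algebraicClosure k Ω) (y : unramified F Ω U), (y : Ω) = x →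
    (toHom σ y : Ω) = σ x

end defs

variable {k : Type u} {F : Type v} {Ω : Type w} [Field k] [Field F] [Field Ω] [Algebra k F]
  [Algebra F Ω] [Algebra k Ω] [IsScalarTower k F Ω]

lemma mem_unramified {U : Set (ValuationSubring F)} {x : Ω} :
    x ∈ unramified F Ω U ↔ ∀ W : ValuationSubring Ω, W.comap (algebraMap F Ω) ∈ U →
      ∀ σ ∈ inertia F Ω W, σ x = x := by
  unfold unramified
  rw [← SetLike.mem_coe, IntermediateField.coe_iInf, Set.mem_iInter]
  simp only [SetLike.mem_coe]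
  constructor
  · intro h W hW σ hσ
    have := h ⟨W, hW⟩
    rw [IntermediateField.mem_fixedField_iff] at this
    exact this σ hσ
  · intro h W
    rw [IntermediateField.mem_fixedField_iff]
    exact fun σ hσ => h W.1 W.2 σ hσ

lemma inertia_spec {W : ValuationSubring Ω} {σ : Ω ≃ₐ[F] Ω} (hσ : σ ∈ inertia F Ω W) {x : Ω}
    (hx : x ∈ W) : σ x ∈ W ∧ σ x - x ∈ W.nonunits := by
  obtain ⟨⟨τ, hτ⟩, h1, rfl⟩ := hσ
  have h2 : (⟨τ, hτ⟩ : W.decompositionSubgroup F) • (⟨x, hx⟩ : W) ∈ (⊤ : Set W) := trivial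
  have hmem : τ x ∈ W := ((⟨τ, hτ⟩ : W.decompositionSubgroup F) • (⟨x, hx⟩ : W)).2
  refine ⟨hmem, ?_⟩
  have h3 : (MulSemiringAction.toRingAut (W.decompositionSubgroup F)
      (IsLocalRing.ResidueField W)) ⟨τ, hτ⟩ = 1 := h1
  have h4 := DFunLike.congr_fun h3 (IsLocalRing.residue W ⟨x, hx⟩)
  have h5 : IsLocalRing.residue W ((⟨τ, hτ⟩ : W.decompositionSubgroup F) • (⟨x, hx⟩ : W)) =
      IsLocalRing.residue W ⟨x, hx⟩ := h4
  rw [← sub_eq_zero, ← map_sub, IsLocalRing.residue_eq_zero_iff] at h5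
  rw [ValuationSubring.mem_nonunits_iff_exists_mem_maximalIdeal]
  exact ⟨_, h5⟩

/-- constants lie in every valuation ring -/
lemma const_mem {W : ValuationSubring Ω} (hW : ∀ c : k, algebraMap k Ω c ∈ W) {x : Ω}
    (hx : x ∈ algebraicClosure k Ω) : x ∈ W := by
  have h1 : IsIntegral k x := hx
  have h2 : IsIntegral W x := by
    obtain ⟨p, hp, hpx⟩ := h1
    refine ⟨p.map (⟨⟨⟨fun c => (⟨algebraMap k Ω c, hW c⟩ : W), Subtype.ext (map_one _)⟩,
      fun a b => Subtype.ext (map_mul _ _ _)⟩, Subtype.ext (map_zero _),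
      fun a b => Subtype.ext (map_add _ _ _)⟩ : k →+* W), hp.map _, ?_⟩
    rw [Polynomial.eval₂_map]
    exact hpx
  obtain ⟨y, hy⟩ := IsIntegrallyClosed.isIntegral_iff.1 h2
  rw [← hy]
  exact y.2

lemma const_unit {W : ValuationSubring Ω} (hW : ∀ c : k, algebraMap k Ω c ∈ W) {x : Ω}
    (hx : x ∈ algebraicClosure k Ω) (hn : x ∈ W.nonunits) : x = 0 := by
  rcases (W.mem_nonunits_iff_or).1 hn with h | h
  · exact h
  · exact absurd (const_mem hW (inv_mem hx)) h

/-- the inertia groups fix the constants -/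
lemma inertia_const {W : ValuationSubring Ω} (hW : ∀ c : k, algebraMap k Ω c ∈ W)
    {σ : Ω ≃ₐ[F] Ω} (hσ : σ ∈ inertia F Ω W) {x : Ω} (hx : x ∈ algebraicClosure k Ω) :
    σ x = x := by
  have h1 := inertia_spec hσ (const_mem hW hx)
  have h2 : σ x ∈ algebraicClosure k Ω := by
    have h3 : IsIntegral k x := hx
    exact h3.map (σ.toAlgHom.restrictScalars k)
  exact sub_eq_zero.1 (const_unit hW (sub_mem h2 hx) h1.2)

/-- the inertia groups fix the `n`-th roots of elements which are `n`-th powers up to units -/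
lemma inertia_root {W : ValuationSubring Ω} (hW : ∀ c : k, algebraMap k Ω c ∈ W)
    {σ : Ω ≃ₐ[F] Ω} (hσ : σ ∈ inertia F Ω W) {n : ℕ} (hn : 0 < n) {w t : Ω}
    (hw : σ (w ^ n) = w ^ n) (ht : σ t = t) (ht0 : t ≠ 0) (hw0 : w ≠ 0)
    (h1 : w ^ n / t ^ n ∈ W) (h2 : t ^ n / w ^ n ∈ W) : σ w = w := by
  set v : Ω := w / t with hv
  have hv0 : v ≠ 0 := div_ne_zero hw0 ht0
  have hvn : v ^ n ∈ W := by rw [hv, div_pow]; exact h1
  have hvn' : (v⁻¹) ^ n ∈ W := by rw [hv, inv_div, div_pow]; exact h2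
  have key : ∀ x : Ω, x ^ n ∈ W → x ∈ W := by
    intro x hx
    have h3 : IsIntegral W x := by
      refine IsIntegral.of_pow hn ?_
      exact isIntegral_algebraMap (x := (⟨x ^ n, hx⟩ : W))
    obtain ⟨y, hy⟩ := IsIntegrallyClosed.isIntegral_iff.1 h3
    rw [← hy]
    exact y.2
  have hvW := key v hvn
  have hvW' := key v⁻¹ hvn'
  have h3 := inertia_spec hσ hvW
  have h4 : σ v / v ∈ algebraicClosure k Ω := by
    have h5 : (σ v / v) ^ n = 1 := by
      rw [div_pow, ← map_pow, hv, div_pow, map_div₀, map_pow σ t, ht, hw, div_self]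
      exact div_ne_zero (pow_ne_zero _ hw0) (pow_ne_zero _ ht0)
    have h6 : IsIntegral k (σ v / v) := by
      refine IsIntegral.of_pow hn ?_
      rw [h5]
      exact isIntegral_one
    exact h6
  have h5 : σ v / v - 1 ∈ W.nonunits := by
    have h6 : σ v / v - 1 = v⁻¹ * (σ v - v) := by
      field_simp
    rw [h6, ValuationSubring.mem_nonunits_iff, map_mul]
    have h7 : W.valuation v⁻¹ ≤ 1 := (W.valuation_le_one_iff _).2 hvW'
    have h8 : W.valuation (σ v - v) < 1 := (W.mem_nonunits_iff).1 h3.2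
    exact lt_of_le_of_lt (mul_le_of_le_one_left' h7) h8
  have h6 : σ v / v = 1 := sub_eq_zero.1 (const_unit hW (sub_mem h4 (one_mem _)) h5)
  have h7 : σ v = v := by
    rw [div_eq_one_iff_eq hv0] at h6
    exact h6
  have h8 : w = v * t := by rw [hv, div_mul_cancel₀ _ ht0]
  rw [h8, map_mul, h7, ht]

end Pool.Agent.W620.SC
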