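import Pool.Agent.W620.SC.Obstruction

namespace Pool.Agent.W620.SC

open Polynomial IntermediateField

section quadratic

variable {k : Type*} [Field k] [CharZero k] {A : Type*} [Field A] [Algebra k A] [IsAlgClosed A]

omit [CharZero k] [IsAlgClosed A] in
lemma minpoly_sqrt {d : k} (hd : ¬ IsSquare d) {θ : A} (hθ : θ ^ 2 = algebraMap k A d) :
    minpoly k θ = X ^ 2 - C d := by
  symm
  apply minpoly.eq_of_irreducible_of_monic
  · refine X_pow_sub_C_irreducible_of_prime Nat.prime_two fun b hb => hd ⟨b, ?_⟩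
    rw [← hb, pow_two]
  · simp [hθ]
  · exact monic_X_pow_sub_C d two_ne_zero

omit [CharZero k] [IsAlgClosed A] in
lemma sqrt_ne_zero {d : k} (hd : ¬ IsSquare d) {θ : A} (hθ : θ ^ 2 = algebraMap k A d) :
    θ ≠ 0 := by
  rintro rfl
  apply hd
  have : algebraMap k A d = 0 := by rw [← hθ]; ring
  rw [(map_eq_zero_iff _ (algebraMap k A).injective).1 this]
  exact IsSquare.zero

omit [CharZero k] [IsAlgClosed A] in
lemma aroots_sqrt {B : Type*} [CommMonoid B] {d : k} (hd : ¬ IsSquare d) {θ : A}
    (hθ : θ ^ 2 = algebraMap k A d) (f : A → B) :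
    (((minpoly k θ).aroots A).map f).prod = f θ * f (-θ) := by
  rw [minpoly_sqrt hd hθ]
  have h1 : (X ^ 2 - C d : k[X]).aroots A = {θ, -θ} := by
    unfold aroots
    have h2 : (X ^ 2 - C d : k[X]).map (algebraMap k A) = (X - C θ) * (X - C (-θ)) := by
      simp only [Polynomial.map_sub, Polynomial.map_pow, map_X, map_C, ← hθ, C_pow, C_neg]
      ring
    rw [h2, roots_mul, roots_X_sub_C, roots_X_sub_C]
    · rfl
    · exact mul_ne_zero (X_sub_C_ne_zero _) (X_sub_C_ne_zero _)
  rw [h1]
  simp

lemma norm_sqrt [Algebra.IsAlgebraic k A] {d : k} (hd : ¬ IsSquare d) {θ : A}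
    (hθ : θ ^ 2 = algebraMap k A d) (c : k⟮θ⟯) :
    ∃ u v : k, Algebra.norm k c = u ^ 2 - d * v ^ 2 := by
  have hint : IsIntegral k θ := Algebra.IsIntegral.isIntegral _
  have hfin : FiniteDimensional k k⟮θ⟯ := adjoin.finiteDimensional hint
  -- `c = u + v θ`
  have hc : ∃ P : k[X], c = aeval (AdjoinSimple.gen k θ) P := by
    have h1 := (adjoin.powerBasis hint).exists_eq_aeval' c
    rw [adjoin.powerBasis_gen] at h1
    exact h1
  obtain ⟨P, hP⟩ := hc
  have hgen : (AdjoinSimple.gen k θ) ^ 2 = algebraMap k k⟮θ⟯ d := by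
    apply (algebraMap k⟮θ⟯ A).injective
    rw [map_pow, AdjoinSimple.algebraMap_gen, hθ, ← IsScalarTower.algebraMap_apply]
  have hmon : (X ^ 2 - C d : k[X]).Monic := monic_X_pow_sub_C d two_ne_zero
  have hdeg : (P %ₘ (X ^ 2 - C d)).natDegree ≤ 1 := by
    have h2 := natDegree_modByMonic_lt P hmon (by
      intro h
      have := congrArg natDegree h
      rw [natDegree_X_pow_sub_C, natDegree_one] at this
      norm_num at this)
    rw [natDegree_X_pow_sub_C] at h2
    omega
  obtain ⟨v, u, huv⟩ := exists_eq_X_add_C_of_natDegree_le_one hdeg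
  have hc2 : c = algebraMap k _ v * AdjoinSimple.gen k θ + algebraMap k _ u := by
    have h3 := modByMonic_add_div P (X ^ 2 - C d)
    rw [hP, ← h3, huv]
    simp [hgen]
  refine ⟨u, v, ?_⟩
  apply (algebraMap k A).injective
  rw [Algebra.norm_eq_prod_embeddings]
  have h4 : ∀ φ : k⟮θ⟯ →ₐ[k] A, φ c =
      (fun ρ : A => algebraMap k A v * ρ + algebraMap k A u) (φ (AdjoinSimple.gen k θ)) := by
    intro φ
    rw [hc2, map_add, map_mul, φ.commutes, φ.commutes]
  rw [Finset.prod_congr rfl fun φ _ => h4 φ,
    prod_embeddings θ hint (fun ρ : A => algebraMap k A v * ρ + algebraMap k A u),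
    aroots_sqrt hd hθ]
  simp only [map_sub, map_pow, map_mul, ← hθ]
  ring

end quadratic

/-- `z` is a unit of the valuation ring `W` -/
def IsU {Ω : Type*} [Field Ω] (W : ValuationSubring Ω) (z : Ω) : Prop := z ∈ W ∧ z⁻¹ ∈ W

section units

variable {Ω : Type*} [Field Ω] {W : ValuationSubring Ω}

lemma IsU.mul {a b : Ω} (ha : IsU W a) (hb : IsU W b) : IsU W (a * b) :=
  ⟨mul_mem ha.1 hb.1, by rw [mul_inv]; exact mul_mem ha.2 hb.2⟩

lemma IsU.inv {a : Ω} (ha : IsU W a) : IsU W a⁻¹ := ⟨ha.2, by rw [inv_inv]; exact ha.1⟩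

lemma IsU.prod {ι : Type*} (s : Finset ι) (f : ι → Ω) (h : ∀ i ∈ s, IsU W (f i)) :
    IsU W (∏ i ∈ s, f i) :=
  ⟨prod_mem fun i hi => (h i hi).1, by
    rw [← Finset.prod_inv_distrib]
    exact prod_mem fun i hi => (h i hi).2⟩

/-- a member which is not a nonunit is a unit -/
lemma isU_of_not_nonunit {a : Ω} (ha : a ∈ W) (hn : a ∉ W.nonunits) : IsU W a := by
  refine ⟨ha, ?_⟩
  by_contra h
  exact hn ((W.mem_nonunits_iff_or).2 (Or.inr h))

/-- unit minus nonunit -/
lemma isU_add {a b : Ω} (ha : IsU W a) (hb : b ∈ W.nonunits) (ha0 : a ≠ 0) : IsU W (a + b) := by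
  have hbW : b ∈ W := W.nonunits_subset hb
  apply isU_of_not_nonunit (add_mem ha.1 hbW)
  intro h
  have h1 : a ∈ W.nonunits := by
    have := W.nonunits.sub_mem h hb
    simpa using this
  rcases (W.mem_nonunits_iff_or).1 h1 with h2 | h2
  · exact ha0 h2
  · exact h2 ha.2

end units

/-- `∏ (X² - d j²)` -/
noncomputable def quad {k : Type*} [Field k] (d : k) (S : Finset k) : k[X] :=
  ∏ j ∈ S, (X ^ 2 - C (d * j ^ 2))

section main

universe u v w

variable {k : Type u} {F : Type v} {Ω : Type w} [Field k] [Field F] [Field Ω] [Algebra k F]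
  [Algebra F Ω] [Algebra k Ω] [IsScalarTower k F Ω]

theorem quad_no_section [CharZero k] [IsAlgClosed Ω] [Algebra.IsAlgebraic F Ω]
    (U : Set (ValuationSubring F)) (hU : ∀ O ∈ U, ∀ c : k, algebraMap k F c ∈ O)
    {I : Type*} [Fintype I] (d : I → k) (hd : ∀ i, ¬ IsSquare (d i))
    (hdd : ∀ i i', i ≠ i' → ¬ IsSquare (d i * d i')) (S : I → Finset k)
    (hS : ∀ i, ∀ j ∈ S i, ∀ j' ∈ S i, j + j' ≠ 0) (a : k) (ha : a ≠ 0) (x y : F) (hy : y ≠ 0)
    (hxy : algebraMap k F a * y ^ 2 = ∏ i, aeval x (quad (d i) (S i)))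
    (hinf : (∀ i, Even (S i).card) ∨ ∀ O ∈ U, x ∈ O)
    (hnot : ¬ ∃ (r : k) (u v : I → k), a = r ^ 2 * ∏ i, (u i ^ 2 - d i * v i ^ 2)) :
    IsEmpty (GSection k F Ω U) := by
  classical
  have hac : IsAlgClosure k (algebraicClosure k Ω) := inferInstance
  have hA : IsAlgClosed (algebraicClosure k Ω) := hac.1
  have hθ : ∀ i, ∃ θ : algebraicClosure k Ω, θ ^ 2 = algebraMap k _ (d i) := fun i =>
    IsAlgClosed.exists_pow_nat_eq _ two_pos
  choose θ hθ using hθ
  have hθΩ : ∀ i, ((θ i : algebraicClosure k Ω) : Ω) ^ 2 = algebraMap k Ω (d i) := by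
    intro i
    have := congrArg (fun z : algebraicClosure k Ω => (z : Ω)) (hθ i)
    exact this
  have hθ0 : ∀ i, ((θ i : algebraicClosure k Ω) : Ω) ≠ 0 := by
    intro i h
    exact sqrt_ne_zero (hd i) (hθ i) (Subtype.ext h)
  set Z : I → F[X] := fun i => ∏ j ∈ S i, (C x - C (algebraMap k F j) * X) with hZ
  have hZval : ∀ i (ρ : Ω), aeval ρ (Z i) =
      ∏ j ∈ S i, (algebraMap F Ω x - algebraMap k Ω j * ρ) := by
    intro i ρ
    rw [hZ]
    simp only [map_prod, map_sub, map_mul, aeval_C, aeval_X]
    refine Finset.prod_congr rfl fun j _ => ?_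
    rw [← IsScalarTower.algebraMap_apply]
  have hpair : ∀ i, aeval ((θ i : algebraicClosure k Ω) : Ω) (Z i) *
      aeval (-((θ i : algebraicClosure k Ω) : Ω)) (Z i) =
      algebraMap F Ω (aeval x (quad (d i) (S i))) := by
    intro i
    rw [hZval, hZval, ← Finset.prod_mul_distrib]
    unfold quad
    rw [map_prod, map_prod]
    refine Finset.prod_congr rfl fun j _ => ?_
    simp only [map_sub, map_pow, aeval_X, aeval_C, map_mul]
    rw [← IsScalarTower.algebraMap_apply, ← IsScalarTower.algebraMap_apply, ← hθΩ i]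
    ring
  have hprod : ∏ i, (aeval ((θ i : algebraicClosure k Ω) : Ω) (Z i) *
      aeval (-((θ i : algebraicClosure k Ω) : Ω)) (Z i)) =
      algebraMap k Ω a * algebraMap F Ω y ^ 2 := by
    rw [Finset.prod_congr rfl fun i _ => hpair i, ← map_prod, ← hxy, map_mul, map_pow,
      ← IsScalarTower.algebraMap_apply]
  refine no_section (k := k) U hU two_pos θ Z a ha y hy ?_ ?_ ?_
  · -- unramifiedness
    intro i W hW
    have hWk : ∀ c : k, algebraMap k Ω c ∈ W := by
      intro c
      rw [IsScalarTower.algebraMap_apply k F Ω]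
      exact hU _ hW c
    have hconst : ∀ c : Ω, c ∈ algebraicClosure k Ω → c ≠ 0 → IsU W c := fun c hc _ =>
      ⟨const_mem hWk hc, const_mem hWk (inv_mem hc)⟩
    have hjθ : ∀ i' (j : k), algebraMap k Ω j * ((θ i' : algebraicClosure k Ω) : Ω) ∈
        algebraicClosure k Ω := fun i' j =>
      mul_mem ((algebraicClosure k Ω).algebraMap_mem j) (θ i').2
    by_cases hx : algebraMap F Ω x ∈ W
    · by_cases hall : ∀ j ∈ S i, algebraMap F Ω x - algebraMap k Ω j *
          ((θ i : algebraicClosure k Ω) : Ω) ∉ W.nonunits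
      · refine ⟨1, one_mem _, one_ne_zero, ?_⟩
        have hu : IsU W (aeval ((θ i : algebraicClosure k Ω) : Ω) (Z i)) := by
          rw [hZval]
          refine IsU.prod _ _ fun j hj => isU_of_not_nonunit ?_ (hall j hj)
          exact sub_mem hx (const_mem hWk (hjθ i j))
        rw [one_pow, div_one, one_div]
        exact hu
      · push Not at hall
        obtain ⟨j0, hj0, hnu⟩ := hall
        -- all other factors are units
        have hother : ∀ c : Ω, c ∈ algebraicClosure k Ω →
            c ≠ algebraMap k Ω j0 * ((θ i : algebraicClosure k Ω) : Ω) →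
            IsU W (algebraMap F Ω x - c) := by
          intro c hc hne
          have h1 : algebraMap F Ω x - c =
              (algebraMap k Ω j0 * ((θ i : algebraicClosure k Ω) : Ω) - c) +
              (algebraMap F Ω x - algebraMap k Ω j0 * ((θ i : algebraicClosure k Ω) : Ω)) := by
            ring
          rw [h1]
          have h2 : algebraMap k Ω j0 * ((θ i : algebraicClosure k Ω) : Ω) - c ≠ 0 :=
            sub_ne_zero.2 hne.symm
          exact isU_add (hconst _ (sub_mem (hjθ i j0) hc) h2) hnu h2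
        have hj00 : j0 ≠ 0 := by
          intro h
          exact hS i j0 hj0 j0 hj0 (by rw [h]; ring)
        have hneg : IsU W (aeval (-((θ i : algebraicClosure k Ω) : Ω)) (Z i)) := by
          rw [hZval]
          refine IsU.prod _ _ fun j hj => ?_
          refine hother _ ?_ ?_
          · rw [mul_neg]
            exact neg_mem (hjθ i j)
          · intro h
            have h1 : (algebraMap k Ω (j0 + j)) * ((θ i : algebraicClosure k Ω) : Ω) = 0 := by
              rw [map_add]
              linear_combination -h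
            rcases mul_eq_zero.1 h1 with h2 | h2
            · exact hS i j0 hj0 j hj ((map_eq_zero_iff _ (algebraMap k Ω).injective).1 h2)
            · exact hθ0 i h2
        have hoth : ∀ i', i' ≠ i → ∀ ε : Ω, ε ^ 2 = 1 → ∀ j : k, algebraMap k Ω j *
            (ε * ((θ i' : algebraicClosure k Ω) : Ω)) ≠
            algebraMap k Ω j0 * ((θ i : algebraicClosure k Ω) : Ω) := by
          intro i' hi' ε hε j h
          apply hdd i i' hi'.symm
          have h1 := congrArg (fun z => z ^ 2) h
          simp only [mul_pow, hε, one_mul, hθΩ] at h1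
          rw [← map_pow, ← map_pow, ← map_mul, ← map_mul] at h1
          have h2 := (algebraMap k Ω).injective h1
          refine ⟨j * d i' / j0, ?_⟩
          field_simp
          linear_combination -(d i') * h2
        have hrest : ∀ i', i' ≠ i → IsU W (aeval ((θ i' : algebraicClosure k Ω) : Ω) (Z i') *
            aeval (-((θ i' : algebraicClosure k Ω) : Ω)) (Z i')) := by
          intro i' hi'
          refine IsU.mul ?_ ?_
          · rw [hZval]
            refine IsU.prod _ _ fun j _ => hother _ (hjθ i' j) ?_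
            have := hoth i' hi' 1 (one_pow 2) j
            rwa [one_mul] at this
          · rw [hZval]
            refine IsU.prod _ _ fun j _ => hother _ ?_ ?_
            · rw [mul_neg]
              exact neg_mem (hjθ i' j)
            · have := hoth i' hi' (-1) (by ring) j
              rwa [neg_one_mul] at this
        have haU : IsU W (algebraMap k Ω a) := hconst _ ((algebraicClosure k Ω).algebraMap_mem a)
          ((_root_.map_ne_zero _).2 ha)
        have hy0 : algebraMap F Ω y ≠ 0 := (_root_.map_ne_zero _).2 hy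
        set R : Ω := aeval (-((θ i : algebraicClosure k Ω) : Ω)) (Z i) *
          ∏ i' ∈ Finset.univ.erase i, (aeval ((θ i' : algebraicClosure k Ω) : Ω) (Z i') *
            aeval (-((θ i' : algebraicClosure k Ω) : Ω)) (Z i')) with hR
        have hRU : IsU W R := hneg.mul (IsU.prod _ _ fun i' hi' =>
          hrest i' (Finset.ne_of_mem_erase hi'))
        have hzR : aeval ((θ i : algebraicClosure k Ω) : Ω) (Z i) * R =
            algebraMap k Ω a * algebraMap F Ω y ^ 2 := by
          rw [← hprod, ← Finset.mul_prod_erase _ _ (Finset.mem_univ i), hR]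
          ring
        have hR0 : R ≠ 0 := by
          intro h
          rw [h, mul_zero] at hzR
          exact mul_ne_zero ((_root_.map_ne_zero _).2 ha) (pow_ne_zero 2 hy0) hzR.symm
        refine ⟨algebraMap F Ω y, IntermediateField.algebraMap_mem _ y, hy0, ?_⟩
        have h1 : aeval ((θ i : algebraicClosure k Ω) : Ω) (Z i) / algebraMap F Ω y ^ 2 =
            algebraMap k Ω a * R⁻¹ := by
          rw [div_eq_iff (pow_ne_zero 2 hy0), mul_right_comm, ← hzR]
          field_simp
        have h2 := haU.mul hRU.inv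
        rw [← h1] at h2
        refine ⟨h2.1, ?_⟩
        rw [← inv_div]
        exact h2.2
    · -- at infinity
      have heven : ∀ i, Even (S i).card := by
        rcases hinf with h | h
        · exact h
        · exact absurd (h _ hW) hx
      obtain ⟨m, hm⟩ := heven i
      have hx0 : algebraMap F Ω x ≠ 0 := by
        intro h
        rw [h] at hx
        exact hx (zero_mem _)
      have hxinv : (algebraMap F Ω x)⁻¹ ∈ W.nonunits :=
        (W.inv_mem_nonunits_iff).2 (Or.inr hx)
      refine ⟨algebraMap F Ω x ^ m, pow_mem (IntermediateField.algebraMap_mem _ x) m, pow_ne_zero m hx0, ?_⟩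
      have hU1 : IsU W (∏ j ∈ S i, (1 + -(algebraMap k Ω j *
          ((θ i : algebraicClosure k Ω) : Ω) * (algebraMap F Ω x)⁻¹))) := by
        refine IsU.prod _ _ fun j _ => isU_add ⟨one_mem _, by rw [inv_one]; exact one_mem _⟩ ?_
          one_ne_zero
        refine neg_mem ?_
        rw [W.mem_nonunits_iff, map_mul]
        exact lt_of_le_of_lt (mul_le_of_le_one_left' ((W.valuation_le_one_iff _).2
          (const_mem hWk (hjθ i j)))) ((W.mem_nonunits_iff).1 hxinv)
      have h1 : aeval ((θ i : algebraicClosure k Ω) : Ω) (Z i) /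
          (algebraMap F Ω x ^ m) ^ 2 = ∏ j ∈ S i, (1 + -(algebraMap k Ω j *
          ((θ i : algebraicClosure k Ω) : Ω) * (algebraMap F Ω x)⁻¹)) := by
        rw [hZval, ← pow_mul, mul_two, ← hm, ← Finset.prod_const, ← Finset.prod_div_distrib]
        refine Finset.prod_congr rfl fun j _ => ?_
        field_simp
        ring
      rw [← h1] at hU1
      refine ⟨hU1.1, ?_⟩
      rw [← inv_div]
      exact hU1.2
  · rw [← hprod]
    refine Finset.prod_congr rfl fun i _ => ?_
    exact aroots_sqrt (hd i) (hθ i) (fun ρ : algebraicClosure k Ω => aeval (ρ : Ω) (Z i))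
  · rintro ⟨c, r, hc⟩
    have h1 := fun i => norm_sqrt (hd i) (hθ i) (c i)
    choose u v huv using h1
    exact hnot ⟨r, u, v, by rw [hc]; congr 1; exact Finset.prod_congr rfl fun i _ => huv i⟩

end main

end Pool.Agent.W620.SC
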