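import Pool.Agent.W620.SC.Arith

namespace Pool.Agent.W620.SC

open Polynomial

/-- squares in `ℚ_l`, `l` odd -/
lemma sq_of_res {l : ℕ} [Fact l.Prime] (hl2 : l ≠ 2) {d : ℤ} (hd : ¬ (l : ℤ) ∣ d)
    (hs : IsSquare (d : ZMod l)) : ∃ x : ℚ_[l], x ^ 2 = d := by
  obtain ⟨c, hc⟩ := hs
  obtain ⟨c0, rfl⟩ := ZMod.intCast_surjective c
  have hdiv : (l : ℤ) ∣ c0 ^ 2 - d := by
    rw [← ZMod.intCast_zmod_eq_zero_iff_dvd]
    push_cast
    rw [hc]
    ring
  have hc0 : ¬ (l : ℤ) ∣ c0 := by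
    intro h
    apply hd
    have h1 : (l : ℤ) ∣ c0 ^ 2 := h.pow two_ne_zero
    have h2 := dvd_sub h1 hdiv
    simpa using h2
  have h2c0 : ¬ (l : ℤ) ∣ 2 * c0 := by
    intro h
    have hlp : Prime (l : ℤ) := Nat.prime_iff_prime_int.1 Fact.out
    rcases hlp.dvd_or_dvd h with h1 | h1
    · have h3 : l ∣ 2 := by exact_mod_cast h1
      exact hl2 ((Nat.prime_dvd_prime_iff_eq Fact.out Nat.prime_two).1 h3)
    · exact hc0 h1
  have hnorm : ‖(X ^ 2 - C d : ℤ[X]).aeval (c0 : ℤ_[l])‖ <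
      ‖(X ^ 2 - C d : ℤ[X]).derivative.aeval (c0 : ℤ_[l])‖ ^ 2 := by
    have e1 : (X ^ 2 - C d : ℤ[X]).aeval (c0 : ℤ_[l]) = ((c0 ^ 2 - d : ℤ) : ℤ_[l]) := by
      simp
    have e2 : (X ^ 2 - C d : ℤ[X]).derivative.aeval (c0 : ℤ_[l]) = ((2 * c0 : ℤ) : ℤ_[l]) := by
      simp only [derivative_sub, derivative_X_pow, derivative_C, sub_zero]
      simp only [map_mul, aeval_C, map_pow, aeval_X]
      simp
    rw [e1, e2]
    have n1 : ‖((c0 ^ 2 - d : ℤ) : ℤ_[l])‖ < 1 := (PadicInt.norm_int_lt_one_iff_dvd _).2 hdiv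
    have n2 : ‖((2 * c0 : ℤ) : ℤ_[l])‖ = 1 := by
      refine le_antisymm (PadicInt.norm_le_one _) ?_
      by_contra h
      exact h2c0 ((PadicInt.norm_int_lt_one_iff_dvd _).1 (not_le.1 h))
    rw [n2, one_pow]
    exact n1
  obtain ⟨z, hz, _⟩ := hensels_lemma hnorm
  refine ⟨(z : ℚ_[l]), ?_⟩
  have h1 : z ^ 2 = (d : ℤ_[l]) := by
    have : z ^ 2 - (d : ℤ_[l]) = 0 := by simpa using hz
    exact sub_eq_zero.1 this
  have h2 := congrArg (fun y : ℤ_[l] => (y : ℚ_[l])) h1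
  simpa using h2

/-- squares in `ℚ_2` -/
lemma sq_of_mod_eight {d : ℤ} (hd : d % 8 = 1) : ∃ x : ℚ_[2], x ^ 2 = d := by
  have hnorm : ‖(X ^ 2 - C d : ℤ[X]).aeval (1 : ℤ_[2])‖ <
      ‖(X ^ 2 - C d : ℤ[X]).derivative.aeval (1 : ℤ_[2])‖ ^ 2 := by
    have e1 : (X ^ 2 - C d : ℤ[X]).aeval (1 : ℤ_[2]) = ((1 - d : ℤ) : ℤ_[2]) := by
      simp
    have e2 : (X ^ 2 - C d : ℤ[X]).derivative.aeval (1 : ℤ_[2]) = (2 : ℤ_[2]) := by
      simp only [derivative_sub, derivative_X_pow, derivative_C, sub_zero]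
      simp only [map_mul, aeval_C, map_pow, aeval_X]
      simp
    rw [e1, e2]
    have n1 : ‖((1 - d : ℤ) : ℤ_[2])‖ ≤ ((2 : ℕ) : ℝ) ^ (-(3 : ℕ) : ℤ) :=
      PadicInt.norm_int_le_pow_iff_dvd.2 (by
        have : ((2 : ℕ) : ℤ) ^ 3 = 8 := by norm_num
        rw [this]
        omega)
    have n2 : ‖(2 : ℤ_[2])‖ = 2⁻¹ := by
      have := PadicInt.norm_p (p := 2)
      simpa using this
    rw [n2]
    refine lt_of_le_of_lt n1 ?_
    norm_num
  obtain ⟨z, hz, _⟩ := hensels_lemma hnorm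
  refine ⟨(z : ℚ_[2]), ?_⟩
  have h1 : z ^ 2 = (d : ℤ_[2]) := by
    have : z ^ 2 - (d : ℤ_[2]) = 0 := by simpa using hz
    exact sub_eq_zero.1 this
  have h2 := congrArg (fun y : ℤ_[2] => (y : ℚ_[2])) h1
  simpa using h2

/-- one of `p`, `q`, `pq` is a square in `ℚ_l` -/
theorem exists_local_root {p q : ℕ} [Fact p.Prime] [Fact q.Prime] (hp : p % 4 = 1)
    (hq : q % 4 = 1) (hpq : legendreSym p q = 1) (l : ℕ) [Fact l.Prime] :
    (∃ x : ℚ_[l], x ^ 2 = p) ∨ (∃ x : ℚ_[l], x ^ 2 = q) ∨ ∃ x : ℚ_[l], x ^ 2 = p * q := by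
  have hpp : p.Prime := Fact.out
  have hqp : q.Prime := Fact.out
  have hlp : l.Prime := Fact.out
  have hne : p ≠ q := by
    rintro rfl
    rw [(legendreSym.eq_zero_iff p p).2 (by simp)] at hpq
    norm_num at hpq
  have hp2 : p ≠ 2 := by rintro rfl; omega
  have hq2 : q ≠ 2 := by rintro rfl; omega
  have hndvd : ∀ {a b : ℕ}, a.Prime → b.Prime → a ≠ b → ¬ (a : ℤ) ∣ b := by
    intro a b ha hb hab h
    have h1 : a ∣ b := by exact_mod_cast h
    exact hab ((Nat.prime_dvd_prime_iff_eq ha hb).1 h1)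
  by_cases hl2 : l = 2
  · subst hl2
    by_cases h1 : p % 8 = 1
    · left
      obtain ⟨x, hx⟩ := sq_of_mod_eight (d := (p : ℤ)) (by omega)
      exact ⟨x, by rw [hx]; push_cast; rfl⟩
    · by_cases h2 : q % 8 = 1
      · right; left
        obtain ⟨x, hx⟩ := sq_of_mod_eight (d := (q : ℤ)) (by omega)
        exact ⟨x, by rw [hx]; push_cast; rfl⟩
      · right; right
        have h3 : (p * q) % 8 = 1 := by
          have h4 : p % 8 = 5 := by omega
          have h5 : q % 8 = 5 := by omega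
          rw [Nat.mul_mod, h4, h5]
        obtain ⟨x, hx⟩ := sq_of_mod_eight (d := ((p * q : ℕ) : ℤ)) (by omega)
        exact ⟨x, by rw [hx]; push_cast; rfl⟩
  by_cases hlp' : l = p
  · subst hlp'
    right; left
    have h1 : IsSquare ((q : ℤ) : ZMod l) := by
      rw [← legendreSym.eq_one_iff l]
      · exact hpq
      · intro h
        rw [(legendreSym.eq_zero_iff l q).2 h] at hpq
        norm_num at hpq
    obtain ⟨x, hx⟩ := sq_of_res hl2 (hndvd hpp hqp hne) h1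
    exact ⟨x, by rw [hx]; push_cast; rfl⟩
  by_cases hlq' : l = q
  · subst hlq'
    left
    have hrec : legendreSym l p = 1 := by
      rw [legendreSym.quadratic_reciprocity_one_mod_four hp hl2]
      exact hpq
    have h1 : IsSquare ((p : ℤ) : ZMod l) := by
      rw [← legendreSym.eq_one_iff l]
      · exact hrec
      · intro h
        rw [(legendreSym.eq_zero_iff l p).2 h] at hrec
        norm_num at hrec
    obtain ⟨x, hx⟩ := sq_of_res hl2 (hndvd hqp hpp hne.symm) h1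
    exact ⟨x, by rw [hx]; push_cast; rfl⟩
  have hp0 : ((p : ℤ) : ZMod l) ≠ 0 := by
    rw [Ne, ZMod.intCast_zmod_eq_zero_iff_dvd]
    exact hndvd hlp hpp hlp'
  have hq0 : ((q : ℤ) : ZMod l) ≠ 0 := by
    rw [Ne, ZMod.intCast_zmod_eq_zero_iff_dvd]
    exact hndvd hlp hqp hlq'
  rcases legendreSym.eq_one_or_neg_one l hp0 with h1 | h1
  · left
    obtain ⟨x, hx⟩ := sq_of_res hl2 (hndvd hlp hpp hlp') ((legendreSym.eq_one_iff l hp0).1 h1)
    exact ⟨x, by rw [hx]; push_cast; rfl⟩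
  rcases legendreSym.eq_one_or_neg_one l hq0 with h2 | h2
  · right; left
    obtain ⟨x, hx⟩ := sq_of_res hl2 (hndvd hlp hqp hlq') ((legendreSym.eq_one_iff l hq0).1 h2)
    exact ⟨x, by rw [hx]; push_cast; rfl⟩
  · right; right
    have hpq0 : ((p * q : ℤ) : ZMod l) ≠ 0 := by
      push_cast
      push_cast at hp0 hq0
      exact mul_ne_zero hp0 hq0
    have h3 : legendreSym l (p * q : ℤ) = 1 := by
      rw [legendreSym.mul, h1, h2]
      norm_num
    have h4 : ¬ (l : ℤ) ∣ (p * q : ℤ) := by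
      rw [← ZMod.intCast_zmod_eq_zero_iff_dvd]
      exact hpq0
    obtain ⟨x, hx⟩ := sq_of_res hl2 h4 ((legendreSym.eq_one_iff l hpq0).1 h3)
    exact ⟨x, by rw [hx]; push_cast; rfl⟩

end Pool.Agent.W620.SC
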