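import Pool.Agent.W620.SC.NF
import Pool.Agent.W620.SC.Padic
import Pool.Agent.W620.SC.Explicit

namespace Pool.Agent.W620.SC

open Polynomial

universe u v w

/-- the right hand side -/
noncomputable def rhs (p q : ℕ) {k : Type u} [Field k] (S T R : Finset k) : k[X] :=
  quad (p : k) S * quad (q : k) T * quad (p * q : k) R

lemma aeval_quad {k : Type u} {L : Type v} [Field k] [Field L] [Algebra k L] (d : k)
    (S : Finset k) (x : L) : aeval x (quad d S) =
      ∏ j ∈ S, (x ^ 2 - algebraMap k L d * algebraMap k L j ^ 2) := by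
  unfold quad
  rw [map_prod]
  refine Finset.prod_congr rfl fun j _ => ?_
  simp

lemma quad_form {k : Type u} [Field k] (d : k) (S : Finset k) (x : k) :
    ∃ u v : k, aeval x (quad d S) = u ^ 2 - d * v ^ 2 := by
  classical
  rw [aeval_quad]
  simp only [Algebra.algebraMap_self, RingHom.id_apply]
  induction S using Finset.induction_on with
  | empty => exact ⟨1, 0, by simp⟩
  | insert j S hj ih =>
    obtain ⟨u, v, huv⟩ := ih
    refine ⟨x * u + d * j * v, x * v + j * u, ?_⟩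
    rw [Finset.prod_insert hj, huv]
    ring

lemma quad_zero {k : Type u} {L : Type v} [Field k] [Field L] [Algebra k L] (d : k)
    (S : Finset k) {j : k} (hj : j ∈ S) {δ : L} (hδ : δ ^ 2 = algebraMap k L d) :
    aeval (algebraMap k L j * δ) (quad d S) = 0 := by
  rw [aeval_quad]
  refine Finset.prod_eq_zero hj ?_
  rw [mul_pow, hδ]
  ring

variable {p q : ℕ} [Fact p.Prime] [Fact q.Prime]

section

variable {k : Type u} [Field k] [NumberField k] (hp : p % 4 = 1) (hq : q % 4 = 1)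
  (hpq : legendreSym p q = 1) {a : k} (ha : a ≠ 0) (hodd : Odd (bad p q (Algebra.norm ℚ a)))
  (S T R : Finset k)

include hp hq hpq ha hodd

theorem family_no_points (hS : ∀ i ∈ S, ∀ j ∈ S, i + j ≠ 0) (hT : ∀ i ∈ T, ∀ j ∈ T, i + j ≠ 0)
    (hR : ∀ i ∈ R, ∀ j ∈ R, i + j ≠ 0) (x y : k) : a * y ^ 2 ≠ aeval x (rhs p q S T R) := by
  intro h
  obtain ⟨h1, h2, h3, -⟩ := not_isSquare_nf hp hq hpq ha hodd
  unfold rhs at h
  rw [map_mul, map_mul] at h
  by_cases hy : y = 0
  · rw [hy, zero_pow two_ne_zero, mul_zero] at h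
    have key : ∀ (d : k) (S : Finset k), (∀ i ∈ S, ∀ j ∈ S, i + j ≠ 0) → ¬ IsSquare d →
        aeval x (quad d S) ≠ 0 := by
      intro d S hS hd h0
      rw [aeval_quad, Finset.prod_eq_zero_iff] at h0
      obtain ⟨j, hj, hj0⟩ := h0
      have hj1 : j ≠ 0 := by
        rintro rfl
        exact hS 0 hj 0 hj (add_zero _)
      apply hd
      refine ⟨x / j, ?_⟩
      simp only [Algebra.algebraMap_self, RingHom.id_apply] at hj0
      field_simp
      linear_combination -hj0
    exact mul_ne_zero (mul_ne_zero (key _ S hS h1) (key _ T hT h2)) (key _ R hR h3) h.symm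
  · obtain ⟨u1, v1, e1⟩ := quad_form (p : k) S x
    obtain ⟨u2, v2, e2⟩ := quad_form (q : k) T x
    obtain ⟨u3, v3, e3⟩ := quad_form (p * q : k) R x
    rw [e1, e2, e3] at h
    refine not_norms_nf hp hq hpq ha hodd (1 / y) u1 v1 u2 v2 u3 v3 ?_
    rw [← h]
    field_simp

theorem family_no_section {F : Type v} {Ω : Type w} [Field F] [Field Ω] [Algebra k F]
    [Algebra F Ω] [Algebra k Ω] [IsScalarTower k F Ω] [IsAlgClosed Ω] [Algebra.IsAlgebraic F Ω]
    (hS : ∀ i ∈ S, ∀ j ∈ S, i + j ≠ 0) (hT : ∀ i ∈ T, ∀ j ∈ T, i + j ≠ 0)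
    (hR : ∀ i ∈ R, ∀ j ∈ R, i + j ≠ 0) (U : Set (ValuationSubring F))
    (hU : ∀ O ∈ U, ∀ c : k, algebraMap k F c ∈ O) (x y : F) (hy : y ≠ 0)
    (hxy : algebraMap k F a * y ^ 2 = aeval x (rhs p q S T R))
    (hinf : (Even S.card ∧ Even T.card ∧ Even R.card) ∨ ∀ O ∈ U, x ∈ O) :
    IsEmpty (GSection k F Ω U) := by
  obtain ⟨h1, h2, h3, -⟩ := not_isSquare_nf hp hq hpq ha hodd
  have hpp : p.Prime := Fact.out
  have hqp : q.Prime := Fact.out
  have hp0 : (p : k) ≠ 0 := by exact_mod_cast hpp.ne_zero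
  have hq0 : (q : k) ≠ 0 := by exact_mod_cast hqp.ne_zero
  have h4 : ¬ IsSquare ((p : k) * (p * q)) := by
    rintro ⟨s, hs⟩
    refine h2 ⟨s / p, ?_⟩
    field_simp
    linear_combination hs
  have h5 : ¬ IsSquare ((q : k) * (p * q)) := by
    rintro ⟨s, hs⟩
    refine h1 ⟨s / q, ?_⟩
    field_simp
    linear_combination hs
  refine quad_no_section (k := k) U hU (I := Fin 3) ![(p : k), (q : k), (p * q : k)] ?_ ?_
    ![S, T, R] ?_ a ha x y hy ?_ ?_ ?_
  · intro i
    fin_cases i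
    · exact h1
    · exact h2
    · exact h3
  · intro i i' hii
    fin_cases i <;> fin_cases i'
    · exact absurd rfl hii
    · exact h3
    · exact h4
    · change ¬ IsSquare ((q : k) * p)
      rw [mul_comm]
      exact h3
    · exact absurd rfl hii
    · exact h5
    · change ¬ IsSquare ((p * q : k) * p)
      rw [mul_comm]
      exact h4
    · change ¬ IsSquare ((p * q : k) * q)
      rw [mul_comm]
      exact h5
    · exact absurd rfl hii
  · intro i
    fin_cases i
    · exact hS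
    · exact hT
    · exact hR
  · rw [hxy]
    unfold rhs
    rw [map_mul, map_mul, Fin.prod_univ_three]
    rfl
  · rcases hinf with ⟨e1, e2, e3⟩ | h
    · left
      intro i
      fin_cases i
      · exact e1
      · exact e2
      · exact e3
    · exact Or.inr h
  · rintro ⟨r, u, v, h⟩
    rw [Fin.prod_univ_three] at h
    exact not_norms_nf hp hq hpq ha hodd r (u 0) (v 0) (u 1) (v 1) (u 2) (v 2) h

end

theorem family_local (hp : p % 4 = 1) (hq : q % 4 = 1) (hpq : legendreSym p q = 1)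
    {k : Type u} [Field k] (S T R : Finset k) (hS : S.Nonempty) (hT : T.Nonempty)
    (hR : R.Nonempty) {L : Type v} [Field L] [Algebra k L]
    (hL : (∃ (l : ℕ) (_ : Fact l.Prime), Nonempty (ℚ_[l] →+* L)) ∨ Nonempty (ℝ →+* L)) :
    ∃ x : L, aeval x (rhs p q S T R) = 0 := by
  have key : (∃ x : L, x ^ 2 = p) ∨ (∃ x : L, x ^ 2 = q) ∨ ∃ x : L, x ^ 2 = p * q := by
    rcases hL with ⟨l, hl, hφ⟩ | hφ
    · obtain ⟨φ⟩ := hφ
      rcases exists_local_root hp hq hpq l with ⟨x, hx⟩ | ⟨x, hx⟩ | ⟨x, hx⟩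
      · exact Or.inl ⟨φ x, by rw [← map_pow, hx, map_natCast]⟩
      · exact Or.inr (Or.inl ⟨φ x, by rw [← map_pow, hx, map_natCast]⟩)
      · exact Or.inr (Or.inr ⟨φ x, by rw [← map_pow, hx, map_mul, map_natCast, map_natCast]⟩)
    · obtain ⟨φ⟩ := hφ
      refine Or.inl ⟨φ (Real.sqrt p), ?_⟩
      rw [← map_pow, Real.sq_sqrt (Nat.cast_nonneg p), map_natCast]
  unfold rhs
  rcases key with ⟨x, hx⟩ | ⟨x, hx⟩ | ⟨x, hx⟩
  · obtain ⟨j, hj⟩ := hS
    refine ⟨algebraMap k L j * x, ?_⟩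
    rw [map_mul, map_mul, quad_zero (p : k) S hj (by rw [hx, map_natCast]), zero_mul, zero_mul]
  · obtain ⟨j, hj⟩ := hT
    refine ⟨algebraMap k L j * x, ?_⟩
    rw [map_mul, map_mul, quad_zero (q : k) T hj (by rw [hx, map_natCast]), mul_zero, zero_mul]
  · obtain ⟨j, hj⟩ := hR
    refine ⟨algebraMap k L j * x, ?_⟩
    rw [map_mul, map_mul, quad_zero (p * q : k) R hj
      (by rw [hx, map_mul, map_natCast, map_natCast]), mul_zero]

end Pool.Agent.W620.SC
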