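import Pool.Agent.W620.SC.Arith

namespace Pool.Agent.W620.SC

open Polynomial

/-- the number of primes, with multiplicity, dividing the numerator or the denominator of `r` and
modulo which neither `p` nor `q` is a square -/
def bad (p q : ℕ) [Fact p.Prime] [Fact q.Prime] (r : ℚ) : ℕ :=
  ∑ l ∈ (r.num.natAbs * r.den).primeFactors.filter
    (fun l : ℕ => legendreSym p l = -1 ∧ legendreSym q l = -1),
    (r.num.natAbs * r.den).factorization l

lemma norm_form {k : Type*} [Field k] [NumberField k] (d : ℚ) (u v : k) :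
    ∃ A B : ℚ, Algebra.norm ℚ (u ^ 2 - algebraMap ℚ k d * v ^ 2) = A ^ 2 - d * B ^ 2 := by
  classical
  obtain ⟨ρ, hρ⟩ : ∃ ρ : ℂ, ρ ^ 2 = (algebraMap ℚ ℂ d) := IsAlgClosed.exists_pow_nat_eq _ two_pos
  set b := Module.finBasis ℚ k with hb
  set Mu := Algebra.leftMulMatrix b u with hMu
  set Mv := Algebra.leftMulMatrix b v with hMv
  set P : ℚ[X] := Matrix.det (Mu.map C + (X : ℚ[X]) • Mv.map C) with hP
  have hmon : (X ^ 2 - C d : ℚ[X]).Monic := monic_X_pow_sub_C d two_ne_zero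
  have hdeg : (P %ₘ (X ^ 2 - C d)).natDegree ≤ 1 := by
    have h2 := natDegree_modByMonic_lt P hmon (by
      intro h
      have := congrArg natDegree h
      rw [natDegree_X_pow_sub_C, natDegree_one] at this
      norm_num at this)
    rw [natDegree_X_pow_sub_C] at h2
    omega
  obtain ⟨B, A, hAB⟩ := exists_eq_X_add_C_of_natDegree_le_one hdeg
  refine ⟨A, B, ?_⟩
  have hev : ∀ τ : ℂ, τ ^ 2 = algebraMap ℚ ℂ d → aeval τ P =
      algebraMap ℚ ℂ B * τ + algebraMap ℚ ℂ A := by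
    intro τ hτ
    have h3 := modByMonic_add_div P (X ^ 2 - C d)
    rw [← h3, hAB]
    simp [hτ]
  have hdet : ∀ τ : ℂ, aeval τ P = Matrix.det (Mu.map (algebraMap ℚ ℂ) +
      τ • Mv.map (algebraMap ℚ ℂ)) := by
    intro τ
    rw [hP, ← AlgHom.coe_toRingHom, RingHom.map_det]
    congr 1
    ext i j
    simp
    ring
  have h1 := hev ρ hρ
  have h2 := hev (-ρ) (by rw [neg_sq, hρ])
  rw [hdet] at h1 h2
  have hcomm : Mu.map (algebraMap ℚ ℂ) * Mv.map (algebraMap ℚ ℂ) =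
      Mv.map (algebraMap ℚ ℂ) * Mu.map (algebraMap ℚ ℂ) := by
    rw [← Matrix.map_mul, ← Matrix.map_mul, hMu, hMv, ← map_mul, ← map_mul, mul_comm]
  have h3 : (Mu.map (algebraMap ℚ ℂ) + ρ • Mv.map (algebraMap ℚ ℂ)) *
      (Mu.map (algebraMap ℚ ℂ) + (-ρ) • Mv.map (algebraMap ℚ ℂ)) =
      (Algebra.leftMulMatrix b (u ^ 2 - algebraMap ℚ k d * v ^ 2)).map (algebraMap ℚ ℂ) := by
    have h4 : Algebra.leftMulMatrix b (u ^ 2 - algebraMap ℚ k d * v ^ 2) =
        Mu * Mu - d • (Mv * Mv) := by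
      rw [map_sub, ← Algebra.smul_def, map_smul, pow_two, pow_two, map_mul, map_mul]
    rw [h4]
    have h5 : (Mu * Mu - d • (Mv * Mv)).map (algebraMap ℚ ℂ) =
        Mu.map (algebraMap ℚ ℂ) * Mu.map (algebraMap ℚ ℂ) - (algebraMap ℚ ℂ d) •
          (Mv.map (algebraMap ℚ ℂ) * Mv.map (algebraMap ℚ ℂ)) := by
      rw [← Matrix.map_mul, ← Matrix.map_mul]
      ext i j
      simp only [Matrix.map_apply, Matrix.sub_apply, Matrix.smul_apply, smul_eq_mul, map_sub,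
        map_mul]
    have h6 : -ρ * ρ = -(ρ ^ 2) := by ring
    rw [h5, ← hρ, mul_add, add_mul, add_mul]
    simp only [Matrix.smul_mul, Matrix.mul_smul, smul_smul, h6]
    rw [hcomm, neg_smul, neg_smul]
    abel
  have h4 := congrArg Matrix.det h3
  rw [Matrix.det_mul, h1, h2] at h4
  have h5 : Matrix.det ((Algebra.leftMulMatrix b (u ^ 2 - algebraMap ℚ k d * v ^ 2)).map
      (algebraMap ℚ ℂ)) = algebraMap ℚ ℂ (Algebra.norm ℚ (u ^ 2 - algebraMap ℚ k d * v ^ 2)) := by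
    rw [Algebra.norm_eq_matrix_det b, RingHom.map_det]
    rfl
  rw [h5] at h4
  apply (algebraMap ℚ ℂ).injective
  rw [← h4]
  simp only [map_sub, map_pow, map_mul, ← hρ]
  ring

variable {p q : ℕ} [Fact p.Prime] [Fact q.Prime]

theorem not_norms_nf {k : Type*} [Field k] [NumberField k] (hp : p % 4 = 1) (hq : q % 4 = 1)
    (hpq : legendreSym p q = 1) {a : k} (ha : a ≠ 0) (hodd : Odd (bad p q (Algebra.norm ℚ a)))
    (r u1 v1 u2 v2 u3 v3 : k) :
    a ≠ r ^ 2 * ((u1 ^ 2 - p * v1 ^ 2) * (u2 ^ 2 - q * v2 ^ 2) *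
      (u3 ^ 2 - (p * q : k) * v3 ^ 2)) := by
  intro heq
  obtain ⟨A1, B1, h1⟩ := norm_form (k := k) (p : ℚ) u1 v1
  obtain ⟨A2, B2, h2⟩ := norm_form (k := k) (q : ℚ) u2 v2
  obtain ⟨A3, B3, h3⟩ := norm_form (k := k) (p * q : ℚ) u3 v3
  rw [map_natCast] at h1 h2
  rw [map_mul, map_natCast, map_natCast] at h3
  have hN : Algebra.norm ℚ a = (Algebra.norm ℚ r) ^ 2 * ((A1 ^ 2 - p * B1 ^ 2) *
      (A2 ^ 2 - q * B2 ^ 2) * (A3 ^ 2 - (p * q : ℚ) * B3 ^ 2)) := by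
    rw [heq, map_mul, map_mul, map_mul, map_pow, h1, h2, h3]
  have hN0 : Algebra.norm ℚ a ≠ 0 := (Algebra.norm_ne_zero_iff).2 ha
  set N := Algebra.norm ℚ a with hNdef
  have hd : (N.den : ℚ) ≠ 0 := by exact_mod_cast N.den_nz
  have hn0 : N.num ≠ 0 := Rat.num_ne_zero.2 hN0
  refine not_norms (p := p) (q := q) hp hq hpq (a := N.num * N.den)
    (mul_ne_zero hn0 (by exact_mod_cast N.den_nz)) ?_ (Algebra.norm ℚ r * N.den) A1 B1 A2 B2 A3 B3 ?_
  · rw [Int.natAbs_mul, Int.natAbs_natCast]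
    exact lam_of_odd hodd
  · have h4 : N * N.den = N.num := Rat.mul_den_eq_num N
    push_cast
    rw [← h4, hN]
    ring

theorem not_isSquare_nf {k : Type*} [Field k] [NumberField k] (hp : p % 4 = 1) (hq : q % 4 = 1)
    (hpq : legendreSym p q = 1) {a : k} (ha : a ≠ 0) (hodd : Odd (bad p q (Algebra.norm ℚ a))) :
    ¬ IsSquare (p : k) ∧ ¬ IsSquare (q : k) ∧ ¬ IsSquare (p * q : k) ∧ ¬ IsSquare a := by
  have hpp : p.Prime := Fact.out
  have hqp : q.Prime := Fact.out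
  have hp0 : (p : k) ≠ 0 := by exact_mod_cast hpp.ne_zero
  have hq0 : (q : k) ≠ 0 := by exact_mod_cast hqp.ne_zero
  have key : ∀ s d : k, d = s * s → d ≠ 0 → a = ((a + 1) / 2) ^ 2 - d * ((a - 1) / (2 * s)) ^ 2 := by
    intro s d hd hd0
    have hs : s ≠ 0 := by
      rintro rfl
      exact hd0 (by rw [hd, mul_zero])
    rw [hd]
    field_simp
    ring
  refine ⟨?_, ?_, ?_, ?_⟩
  · rintro ⟨s, hs⟩
    refine not_norms_nf hp hq hpq ha hodd 1 ((a + 1) / 2) ((a - 1) / (2 * s)) 1 0 1 0 ?_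
    rw [← key s p hs hp0]
    ring
  · rintro ⟨s, hs⟩
    refine not_norms_nf hp hq hpq ha hodd 1 1 0 ((a + 1) / 2) ((a - 1) / (2 * s)) 1 0 ?_
    rw [← key s q hs hq0]
    ring
  · rintro ⟨s, hs⟩
    refine not_norms_nf hp hq hpq ha hodd 1 1 0 1 0 ((a + 1) / 2) ((a - 1) / (2 * s)) ?_
    rw [← key s (p * q) hs (mul_ne_zero hp0 hq0)]
    ring
  · rintro ⟨s, hs⟩
    refine not_norms_nf hp hq hpq ha hodd s 1 0 1 0 1 0 ?_
    rw [hs]
    ring

end Pool.Agent.W620.SC
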