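import Pool.Agent.W620.SC.Core

namespace Pool.Agent.W620.SC

open Finset Polynomial

variable {k A M : Type*} [Field k] [Field A] [Field M] [Algebra k A]

/-- roots of elements of an algebraically closed subfield -/
lemma root_mem [IsAlgClosed A] (ι : A →+* M) {n : ℕ} (hn : 0 < n) {h : M} {b : A}
    (hb : h ^ n = ι b) : ∃ a, ι a = h := by
  have hs : (X ^ n - C b : A[X]).Splits := IsAlgClosed.splits _
  have h0 : (X ^ n - C b : A[X]) ≠ 0 := X_pow_sub_C_ne_zero hn b
  have hs' := hs.mem_range_of_isRoot (i := ι) (x := h) (by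
    intro h1
    exact h0 h1) (by
    simp [Polynomial.IsRoot, hb])
  exact hs'

/-- the fixed field of the fixing subgroup -/
lemma mem_of_fixed [IsGalois k A] (K : IntermediateField k A) {x : A}
    (hx : ∀ σ ∈ K.fixingSubgroup, σ x = x) : x ∈ K := by
  rw [← InfiniteGalois.fixedField_fixingSubgroup K, IntermediateField.mem_fixedField_iff]
  exact hx

/-- the norm principle -/
theorem norm_principle [CharZero k] [IsAlgClosed A] [Algebra.IsAlgebraic k A] (s : (A ≃ₐ[k] A) →* RingAut M)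
    (ι : A →+* M) (hι : ∀ σ a, s σ (ι a) = ι (σ a)) {I : Type*} [Fintype I]
    (K : I → IntermediateField k A) [∀ i, FiniteDimensional k (K i)] {n : ℕ} (hn : 0 < n)
    (w : I → M) (hw0 : ∀ i, w i ≠ 0)
    (hwK : ∀ i, ∀ σ ∈ (K i).fixingSubgroup, s σ (w i ^ n) = w i ^ n)
    (E : I → IntermediateField k A) [∀ i, FiniteDimensional k (E i)]
    (hE : ∀ i, ∀ σ ∈ (E i).fixingSubgroup, s σ (w i) = w i)
    (lf : ∀ i, (K i →ₐ[k] A) → (A ≃ₐ[k] A)) (hlf : ∀ i φ, ∀ x : K i, lf i φ x = φ x)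
    (a : k) (g : M) (hg0 : g ≠ 0) (hg : ∀ σ, s σ g = g)
    (hnorm : ∏ i, ∏ φ : K i →ₐ[k] A, s (lf i φ) (w i ^ n) = ι (algebraMap k A a) * g ^ n) :
    ∃ (c : ∀ i, K i) (r : k), a = r ^ n * ∏ i, Algebra.norm k (c i) := by
  classical
  have : IsAlgClosure k A := ⟨inferInstance, inferInstance⟩
  have : Normal k A := IsAlgClosure.normal k A
  have : IsGalois k A := ⟨⟩
  have hβ : ∀ i, ∃ β : A, β ≠ 0 ∧ ∀ σ ∈ (K i).fixingSubgroup, s σ (ι β * w i) = ι β * w i := by
    intro i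
    refine exists_fixed_multiple s ι hι _ (w i) (hw0 i) ?_ (E i) (hE i)
    intro σ hσ
    have h1 : (s σ (w i) / w i) ^ n = ι 1 := by
      rw [div_pow, ← map_pow, hwK i σ hσ, div_self (pow_ne_zero _ (hw0 i)), map_one]
    obtain ⟨ζ, hζ⟩ := root_mem ι hn h1
    refine ⟨ζ, ?_⟩
    rw [hζ, div_mul_cancel₀ _ (hw0 i)]
  choose β hβ0 hβ using hβ
  -- the elements `β ^ n` lie in `K i`
  have hβK : ∀ i, β i ^ n ∈ K i := by
    intro i
    apply mem_of_fixed
    intro σ hσ
    have h1 := hβ i σ hσ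
    have h2 : s σ ((ι (β i) * w i) ^ n) = (ι (β i) * w i) ^ n := by
      rw [map_pow, h1]
    rw [mul_pow, map_mul, hwK i σ hσ] at h2
    have h3 := mul_right_cancel₀ (pow_ne_zero n (hw0 i)) h2
    rw [← map_pow, hι] at h3
    exact ι.injective h3
  -- the invariant element
  set u : I → M := fun i => ι (β i) * w i with hu
  have hsame : ∀ i, ∀ σ σ' : A ≃ₐ[k] A, (∀ x : K i, σ x = σ' x) → s σ (u i) = s σ' (u i) := by
    intro i σ σ' h
    have h1 : σ'⁻¹ * σ ∈ (K i).fixingSubgroup := by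
      rw [IntermediateField.mem_fixingSubgroup_iff]
      intro x hx
      change σ'⁻¹ (σ x) = x
      rw [h ⟨x, hx⟩]
      exact AlgEquiv.symm_apply_apply σ' x
    have h3 := hβ i _ h1
    have h4 : σ = σ' * (σ'⁻¹ * σ) := by group
    rw [h4, map_mul s]
    change s σ' (s (σ'⁻¹ * σ) (u i)) = s σ' (u i)
    rw [h3]
  set Y : M := ∏ i, ∏ φ : K i →ₐ[k] A, s (lf i φ) (u i) with hY
  have hYfix : ∀ σ, s σ Y = Y := by
    intro σ
    rw [hY, map_prod]
    refine Finset.prod_congr rfl fun i _ => ?_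
    rw [map_prod]
    let e : (K i →ₐ[k] A) ≃ (K i →ₐ[k] A) :=
      ⟨fun φ => (σ : A →ₐ[k] A).comp φ, fun φ => (σ.symm : A →ₐ[k] A).comp φ,
        fun φ => by ext x; simp, fun φ => by ext x; simp⟩
    refine Fintype.prod_equiv e _ _ fun φ => ?_
    change (s σ * s (lf i φ)) (u i) = _
    rw [← map_mul s]
    apply hsame
    intro x
    rw [hlf]
    change σ (lf i φ x) = _
    rw [hlf]
    rfl
  have hYpow : Y ^ n = ι (algebraMap k A (a * ∏ i, Algebra.norm k (⟨β i ^ n, hβK i⟩ : K i))) *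
      g ^ n := by
    rw [hY, ← Finset.prod_pow]
    have h1 : ∀ i, (∏ φ : K i →ₐ[k] A, s (lf i φ) (u i)) ^ n =
        ι (algebraMap k A (Algebra.norm k (⟨β i ^ n, hβK i⟩ : K i))) *
          ∏ φ : K i →ₐ[k] A, s (lf i φ) (w i ^ n) := by
      intro i
      rw [Algebra.norm_eq_prod_embeddings, map_prod, ← Finset.prod_mul_distrib,
        ← Finset.prod_pow]
      refine Finset.prod_congr rfl fun φ _ => ?_
      rw [← map_pow, hu]
      simp only
      rw [mul_pow, map_mul, ← map_pow, hι]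
      congr 2
      exact hlf i φ ⟨β i ^ n, hβK i⟩
    rw [Finset.prod_congr rfl fun i _ => h1 i, Finset.prod_mul_distrib, hnorm, map_mul, map_mul,
      map_prod, map_prod]
    ring
  have hh : (Y / g) ^ n =
      ι (algebraMap k A (a * ∏ i, Algebra.norm k (⟨β i ^ n, hβK i⟩ : K i))) := by
    rw [div_pow, hYpow, mul_div_cancel_right₀ _ (pow_ne_zero n hg0)]
  obtain ⟨h0, hh0⟩ := root_mem ι hn hh
  have hh0k : ∃ r, algebraMap k A r = h0 := by
    have h1 : h0 ∈ (⊥ : IntermediateField k A) := by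
      apply mem_of_fixed
      intro σ _
      apply ι.injective
      rw [← hι, hh0, map_div₀, hYfix, hg]
    exact IntermediateField.mem_bot.1 h1
  obtain ⟨r, hr⟩ := hh0k
  rw [← hh0, ← hr, ← map_pow, ← map_pow] at hh
  have hfin := (algebraMap k A).injective (ι.injective hh)
  refine ⟨fun i => (⟨β i ^ n, hβK i⟩ : K i)⁻¹, r, ?_⟩
  rw [hfin, mul_assoc, ← Finset.prod_mul_distrib]
  have h1 : ∀ i, Algebra.norm k (⟨β i ^ n, hβK i⟩ : K i) *
      Algebra.norm k (⟨β i ^ n, hβK i⟩ : K i)⁻¹ = 1 := by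
    intro i
    rw [← map_mul, mul_inv_cancel₀, map_one]
    intro h
    exact pow_ne_zero n (hβ0 i) (congrArg Subtype.val h)
  rw [Finset.prod_congr rfl fun i _ => h1 i, Finset.prod_const_one, mul_one]

end Pool.Agent.W620.SC
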