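import Pool.Agent.W620.SC.Def

namespace Pool.Agent.W620.SC

open Polynomial IntermediateField

universe u v w

/-- products over the embeddings are products over the roots -/
lemma prod_embeddings {k A B : Type*} [Field k] [Field A] [Algebra k A] [CharZero k]
    [CommMonoid B] [IsAlgClosed A]
    (θ : A) (hθ : IsIntegral k θ) [Fintype (k⟮θ⟯ →ₐ[k] A)] (f : A → B) :
    ∏ φ : k⟮θ⟯ →ₐ[k] A, f (φ (AdjoinSimple.gen k θ)) =
      (((minpoly k θ).aroots A).map f).prod := by
  classical
  set m : Multiset A := (minpoly k θ).aroots A with hm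
  have hnd : m.Nodup := nodup_roots ((minpoly.irreducible hθ).separable.map)
  have h1 : (m.map f).prod = ∏ x ∈ m.toFinset, f x := by
    rw [Finset.prod, Multiset.toFinset_val, Multiset.dedup_eq_self.2 hnd]
  rw [h1, ← Finset.prod_coe_sort m.toFinset f]
  let e : (k⟮θ⟯ →ₐ[k] A) ≃ m.toFinset :=
    (algHomAdjoinIntegralEquiv k hθ).trans
      ((Equiv.refl A).subtypeEquiv fun x => by simp [hm])
  refine Fintype.prod_equiv e _ _ fun φ => ?_
  rfl

variable {k : Type u} {F : Type v} {Ω : Type w} [Field k] [Field F] [Field Ω] [Algebra k F]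
  [Algebra F Ω] [Algebra k Ω] [IsScalarTower k F Ω]

/-- the constants as a subfield of the maximal unramified extension -/
noncomputable def constHom {U : Set (ValuationSubring F)}
    (hU : ∀ O ∈ U, ∀ c : k, algebraMap k F c ∈ O) :
    algebraicClosure k Ω →+* unramified F Ω U :=
  (algebraMap (algebraicClosure k Ω) Ω).codRestrict (unramified F Ω U) (by
    intro x
    rw [mem_unramified]
    intro W hW σ hσ
    refine inertia_const (k := k) ?_ hσ x.2
    intro c
    rw [IsScalarTower.algebraMap_apply k F Ω]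
    exact hU _ hW c)

/-- forgetting the algebra structure -/
def toRingAutHom (F M : Type*) [Field F] [Field M] [Algebra F M] : (M ≃ₐ[F] M) →* RingAut M where
  toFun := fun e => e.toRingEquiv
  map_one' := rfl
  map_mul' := fun _ _ => rfl

theorem no_section [CharZero k] [IsAlgClosed Ω] [Algebra.IsAlgebraic F Ω]
    (U : Set (ValuationSubring F)) (hU : ∀ O ∈ U, ∀ c : k, algebraMap k F c ∈ O)
    {n : ℕ} (hn : 0 < n) {I : Type*} [Fintype I] (θ : I → algebraicClosure k Ω) (Z : I → F[X])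
    (a : k) (ha : a ≠ 0) (g : F) (hg : g ≠ 0)
    (hdiv : ∀ i, ∀ W : ValuationSubring Ω, W.comap (algebraMap F Ω) ∈ U →
      ∃ t ∈ F⟮(θ i : Ω)⟯, t ≠ 0 ∧ aeval (θ i : Ω) (Z i) / t ^ n ∈ W ∧
        t ^ n / aeval (θ i : Ω) (Z i) ∈ W)
    (hnorm : ∏ i, ((((minpoly k (θ i)).aroots (algebraicClosure k Ω)).map
      (fun ρ : algebraicClosure k Ω => aeval (ρ : Ω) (Z i))).prod) = algebraMap k Ω a * algebraMap F Ω g ^ n)
    (hnot : ¬ ∃ (c : ∀ i, k⟮θ i⟯) (r : k), a = r ^ n * ∏ i, Algebra.norm k (c i)) :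
    IsEmpty (GSection k F Ω U) := by
  classical
  refine ⟨fun S => hnot ?_⟩
  have hint : ∀ i, IsIntegral k (θ i) := fun i => Algebra.IsIntegral.isIntegral _
  have hac : IsAlgClosure k (algebraicClosure k Ω) := inferInstance
  have hA : IsAlgClosed (algebraicClosure k Ω) := hac.1
  have hz0 : ∀ i, aeval (θ i : Ω) (Z i) ≠ 0 := by
    intro i hz
    have h1 : algebraMap k Ω a * algebraMap F Ω g ^ n ≠ 0 :=
      mul_ne_zero ((_root_.map_ne_zero _).2 ha) (pow_ne_zero _ ((_root_.map_ne_zero _).2 hg))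
    rw [← hnorm] at h1
    apply h1
    refine Finset.prod_eq_zero (Finset.mem_univ i) ?_
    rw [Multiset.prod_eq_zero_iff, Multiset.mem_map]
    refine ⟨θ i, ?_, hz⟩
    rw [mem_aroots]
    exact ⟨minpoly.ne_zero (hint i), minpoly.aeval k (θ i)⟩
  have hw : ∀ i, ∃ w : Ω, w ^ n = aeval (θ i : Ω) (Z i) := fun i =>
    IsAlgClosed.exists_pow_nat_eq _ hn
  choose w hw using hw
  have hw0 : ∀ i, w i ≠ 0 := by
    intro i h
    apply hz0 i
    rw [← hw, h, zero_pow hn.ne']
  have hWk : ∀ W : ValuationSubring Ω, W.comap (algebraMap F Ω) ∈ U →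
      ∀ c : k, algebraMap k Ω c ∈ W := by
    intro W hW c
    rw [IsScalarTower.algebraMap_apply k F Ω]
    exact hU _ hW c
  have hwU : ∀ i, w i ∈ unramified F Ω U := by
    intro i
    rw [mem_unramified]
    intro W hW σ hσ
    obtain ⟨t, ht, ht0, h1, h2⟩ := hdiv i W hW
    have hσθ : σ (θ i : Ω) = θ i := inertia_const (k := k) (hWk W hW) hσ (θ i).2
    refine inertia_root (k := k) (hWk W hW) hσ hn (t := t) ?_ ?_ ht0 (hw0 i) ?_ ?_
    · rw [hw]
      have h3 := Polynomial.aeval_algHom_apply (σ : Ω →ₐ[F] Ω) (θ i : Ω) (Z i)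
      have h4 : σ (aeval (θ i : Ω) (Z i)) = aeval (σ (θ i : Ω)) (Z i) := h3.symm
      rw [h4, hσθ]
    · have h3 : F⟮(θ i : Ω)⟯ ≤ IntermediateField.fixedField (Subgroup.zpowers σ) := by
        rw [adjoin_simple_le_iff, mem_fixedField_iff]
        intro τ hτ
        have h4 : τ ∈ MulAction.stabilizer (Ω ≃ₐ[F] Ω) (θ i : Ω) := by
          have h5 : Subgroup.zpowers σ ≤ MulAction.stabilizer (Ω ≃ₐ[F] Ω) (θ i : Ω) := by
            rw [Subgroup.zpowers_le]
            exact hσθ
          exact h5 hτ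
        exact h4
      have h4 := h3 ht
      rw [mem_fixedField_iff] at h4
      exact h4 σ (Subgroup.mem_zpowers σ)
    · rw [hw]
      exact h1
    · rw [hw]
      exact h2
  set s : (algebraicClosure k Ω ≃ₐ[k] algebraicClosure k Ω) →* RingAut (unramified F Ω U) :=
    (toRingAutHom F (unramified F Ω U)).comp S.toHom with hs
  have hsapp : ∀ σ x, s σ x = S.toHom σ x := fun σ x => rfl
  have hι : ∀ σ x, s σ (constHom hU x) = constHom hU (σ x) := fun σ x =>
    Subtype.ext (S.compat σ x (constHom hU x) rfl)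
  have hE : ∀ i, ∃ E : IntermediateField k (algebraicClosure k Ω), FiniteDimensional k E ∧
      ∀ σ ∈ E.fixingSubgroup, s σ ⟨w i, hwU i⟩ = ⟨w i, hwU i⟩ := by
    intro i
    have h1 : {e : unramified F Ω U ≃ₐ[F] unramified F Ω U | e ⟨w i, hwU i⟩ = ⟨w i, hwU i⟩} ∈
        nhds (1 : unramified F Ω U ≃ₐ[F] unramified F Ω U) := by
      rw [krullTopology_mem_nhds_one_iff]
      refine ⟨F⟮(⟨w i, hwU i⟩ : unramified F Ω U)⟯, ?_, ?_⟩
      · exact adjoin.finiteDimensional (Algebra.IsIntegral.isIntegral _)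
      · intro e he
        exact (mem_fixingSubgroup_iff _ _).1 he _ (mem_adjoin_simple_self F _)
    have h2 := S.cont.tendsto 1
    rw [map_one] at h2
    have h3 := h2 h1
    rw [Filter.mem_map, krullTopology_mem_nhds_one_iff] at h3
    obtain ⟨E, hE, hE'⟩ := h3
    exact ⟨E, hE, fun σ hσ => hE' hσ⟩
  choose E hEf hE using hE
  have hKf : ∀ i, FiniteDimensional k k⟮θ i⟯ := fun i => adjoin.finiteDimensional (hint i)
  have : Normal k (algebraicClosure k Ω) := IsAlgClosure.normal k _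
  have hlf : ∀ i (φ : k⟮θ i⟯ →ₐ[k] algebraicClosure k Ω),
      ∃ σ : algebraicClosure k Ω ≃ₐ[k] algebraicClosure k Ω, ∀ x : k⟮θ i⟯, σ x = φ x :=
    fun i φ => exists_lift _ φ
  choose lf hlf using hlf
  -- the values
  have hval : ∀ i (σ : algebraicClosure k Ω ≃ₐ[k] algebraicClosure k Ω),
      ((s σ ((⟨w i, hwU i⟩ : unramified F Ω U) ^ n) : unramified F Ω U) : Ω) =
        aeval ((σ (θ i) : algebraicClosure k Ω) : Ω) (Z i) := by
    intro i σ
    have h1 : (⟨w i, hwU i⟩ : unramified F Ω U) ^ n = aeval (constHom hU (θ i)) (Z i) := by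
      apply Subtype.ext
      have h2 := Polynomial.aeval_algHom_apply (unramified F Ω U).val (constHom hU (θ i)) (Z i)
      change w i ^ n = _
      rw [hw]
      exact h2
    rw [h1, hsapp]
    have h3 := Polynomial.aeval_algHom_apply
      (S.toHom σ : unramified F Ω U →ₐ[F] unramified F Ω U) (constHom hU (θ i)) (Z i)
    have h4 : S.toHom σ (aeval (constHom hU (θ i)) (Z i)) =
        aeval (S.toHom σ (constHom hU (θ i))) (Z i) := h3.symm
    rw [h4]
    have h5 : S.toHom σ (constHom hU (θ i)) = constHom hU (σ (θ i)) := hι σ (θ i)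
    rw [h5]
    exact (Polynomial.aeval_algHom_apply (unramified F Ω U).val (constHom hU (σ (θ i))) (Z i)).symm
  refine norm_principle s (constHom hU) hι (fun i => k⟮θ i⟯) hn
    (fun i => (⟨w i, hwU i⟩ : unramified F Ω U)) ?_ ?_ E hE lf hlf a
    (algebraMap F (unramified F Ω U) g) ((_root_.map_ne_zero _).2 hg) ?_ ?_
  · intro i h
    exact hw0 i (congrArg Subtype.val h)
  · intro i σ hσ
    apply Subtype.ext
    have h1 : σ (θ i) = θ i := (mem_fixingSubgroup_iff _ _).1 hσ _ (mem_adjoin_simple_self k _)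
    rw [hval, h1]
    exact (hw i).symm
  · intro σ
    exact (S.toHom σ).commutes g
  · apply (algebraMap (unramified F Ω U) Ω).injective
    rw [map_prod, map_mul, map_pow]
    have h1 : ∀ i, algebraMap (unramified F Ω U) Ω (∏ φ : k⟮θ i⟯ →ₐ[k] algebraicClosure k Ω,
        s (lf i φ) ((⟨w i, hwU i⟩ : unramified F Ω U) ^ n)) =
        (((minpoly k (θ i)).aroots (algebraicClosure k Ω)).map
          (fun ρ : algebraicClosure k Ω => aeval (ρ : Ω) (Z i))).prod := by
      intro i
      rw [map_prod, ← prod_embeddings (θ i) (hint i)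
        (fun ρ : algebraicClosure k Ω => aeval (ρ : Ω) (Z i))]
      refine Finset.prod_congr rfl fun φ _ => ?_
      have h2 := hval i (lf i φ)
      have h3 : lf i φ (θ i) = φ (AdjoinSimple.gen k (θ i)) := hlf i φ (AdjoinSimple.gen k (θ i))
      rw [h3] at h2
      exact h2
    rw [Finset.prod_congr rfl fun i _ => h1 i, hnorm]
    rfl

end Pool.Agent.W620.SC
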