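import Pool.Agent.W620.SC.Family

namespace Pool.Agent.W620.SC

open Polynomial

universe u

lemma coprime_sq {k : Type u} [Field k] {c c' : k} (h : c ≠ c') :
    IsCoprime (X ^ 2 - C c : k[X]) (X ^ 2 - C c') := by
  have h1 : c' - c ≠ 0 := sub_ne_zero.2 h.symm
  refine ⟨C ((c' - c)⁻¹), -C ((c' - c)⁻¹), ?_⟩
  have h2 : (C ((c' - c)⁻¹) : k[X]) * (C c' - C c) = 1 := by
    rw [← C_sub, ← C_mul, inv_mul_cancel₀ h1, C_1]
  linear_combination h2

lemma quad_separable {k : Type u} [Field k] [CharZero k] {d : k} (hd : d ≠ 0) {S : Finset k}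
    (hS : ∀ i ∈ S, ∀ j ∈ S, i + j ≠ 0) : (quad d S).Separable := by
  unfold quad
  refine separable_prod' ?_ ?_
  · intro i hi j hj hij
    apply coprime_sq
    intro h
    have h1 : (i - j) * (i + j) = 0 := by
      have h2 := mul_left_cancel₀ hd h
      linear_combination h2
    rcases mul_eq_zero.1 h1 with h2 | h2
    · exact hij (sub_eq_zero.1 h2)
    · exact hS i hi j hj h2
  · intro i hi
    refine separable_X_pow_sub_C _ (by norm_num) ?_
    refine mul_ne_zero hd (pow_ne_zero 2 ?_)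
    rintro rfl
    exact hS 0 hi 0 hi (add_zero _)

lemma quad_coprime {k : Type u} [Field k] [CharZero k] {d d' : k} (hd : ¬ IsSquare (d * d'))
    {S T : Finset k} (hS : ∀ i ∈ S, ∀ j ∈ S, i + j ≠ 0) :
    IsCoprime (quad d S) (quad d' T) := by
  unfold quad
  refine IsCoprime.prod_left fun i hi => IsCoprime.prod_right fun j hj => coprime_sq ?_
  intro h
  have hi0 : i ≠ 0 := by
    rintro rfl
    exact hS 0 hi 0 hi (add_zero _)
  apply hd
  refine ⟨d' * j / i, ?_⟩
  field_simp
  linear_combination d' * h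

lemma quad_monic {k : Type u} [Field k] (d : k) (S : Finset k) : (quad d S).Monic :=
  monic_prod_of_monic _ _ fun j _ => monic_X_pow_sub_C _ two_ne_zero

lemma quad_natDegree {k : Type u} [Field k] (d : k) (S : Finset k) :
    (quad d S).natDegree = 2 * S.card := by
  unfold quad
  rw [natDegree_prod_of_monic _ _ fun _ _ => monic_X_pow_sub_C _ two_ne_zero,
    Finset.sum_congr rfl fun _ _ => natDegree_X_pow_sub_C, Finset.sum_const, smul_eq_mul, mul_comm]

variable {p q : ℕ} [Fact p.Prime] [Fact q.Prime]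

theorem rhs_separable {k : Type u} [Field k] [NumberField k] (hp : p % 4 = 1) (hq : q % 4 = 1)
    (hpq : legendreSym p q = 1) {a : k} (ha : a ≠ 0) (hodd : Odd (bad p q (Algebra.norm ℚ a)))
    (S T R : Finset k) (hS : ∀ i ∈ S, ∀ j ∈ S, i + j ≠ 0) (hT : ∀ i ∈ T, ∀ j ∈ T, i + j ≠ 0)
    (hR : ∀ i ∈ R, ∀ j ∈ R, i + j ≠ 0) : (rhs p q S T R).Separable := by
  obtain ⟨h1, h2, h3, -⟩ := not_isSquare_nf hp hq hpq ha hodd
  have hpp : p.Prime := Fact.out
  have hqp : q.Prime := Fact.out
  have hp0 : (p : k) ≠ 0 := by exact_mod_cast hpp.ne_zero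
  have hq0 : (q : k) ≠ 0 := by exact_mod_cast hqp.ne_zero
  have h4 : ¬ IsSquare ((p : k) * (p * q)) := by
    rintro ⟨s, hs⟩
    refine h2 ⟨s / p, ?_⟩
    field_simp
    linear_combination hs
  have h5 : ¬ IsSquare ((q : k) * (p * q)) := by
    rintro ⟨s, hs⟩
    refine h1 ⟨s / q, ?_⟩
    field_simp
    linear_combination hs
  unfold rhs
  refine ((quad_separable hp0 hS).mul (quad_separable hq0 hT) (quad_coprime h3 hS)).mul
    (quad_separable (mul_ne_zero hp0 hq0) hR) ?_
  exact IsCoprime.mul_left (quad_coprime h4 hS) (quad_coprime h5 hT)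

theorem rhs_natDegree {k : Type u} [Field k] (S T R : Finset k) :
    (rhs p q S T R).natDegree = 2 * (S.card + T.card + R.card) := by
  unfold rhs
  rw [((quad_monic _ S).mul (quad_monic _ T)).natDegree_mul (quad_monic _ R),
    (quad_monic _ S).natDegree_mul (quad_monic _ T), quad_natDegree, quad_natDegree,
    quad_natDegree]
  ring

end Pool.Agent.W620.SC
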